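import Pool.Agent.H242R3.ES.StmtsN

set_option autoImplicit false
set_option maxHeartbeats 4000000

open MeasureTheory Finset
open scoped Classical

namespace Pool.Agent.H257R3.ESN11

open Pool.Agent.H242R3.ES

section congr

variable {ι : Type} {q q' : ι → ι → ℝ} {s : Finset ι} {F : ι → ℝ}

theorem GMq_congr (h : ∀ i ∈ s, ∀ k ∈ s, q i k = q' i k) : GMq q s F = GMq q' s F := by
  funext i k
  unfold GMq gq
  rw [h i i.2 k k.2]

theorem omq_congr (h : ∀ i ∈ s, ∀ k ∈ s, q i k = q' i k) : omq q s F = omq q' s F := by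
  unfold omq
  rw [GMq_congr h]
  have : exq q s F = exq q' s F := by
    funext x
    unfold exq gq
    have h2 : ∀ i : s, ∀ k : s, q (i : ι) (k : ι) = q' i k := fun i k => h i i.2 k k.2
    simp only [h2]
  rw [this]

theorem kapq_congr (h : ∀ i ∈ s, ∀ k ∈ s, q i k = q' i k) (j : s) :
    kapq q s F j = kapq q' s F j := by
  unfold kapq
  rw [GMq_congr h]

theorem kr_congr {r : Finset ι} {j : ι}
    (h : ∀ i ∈ insert j r, ∀ k ∈ insert j r, q i k = q' i k) :
    kr q r j F = kr q' r j F := by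
  unfold kr
  exact kapq_congr h _

end congr

theorem B_symm {D : ℕ} (x y : LV D) : B x y = B y x := by
  unfold B
  rw [mul_comm (x none)]
  congr 1
  exact Finset.sum_congr rfl fun i _ => mul_comm _ _

theorem B_sum_left {D : ℕ} {κ : Type} (s : Finset κ) (f : κ → LV D) (y : LV D) :
    B (∑ k ∈ s, f k) y = ∑ k ∈ s, B (f k) y := by
  unfold B
  rw [Finset.sum_sub_distrib]
  congr 1
  · rw [Finset.sum_comm]
    refine Finset.sum_congr rfl fun i _ => ?_
    rw [Finset.sum_apply, Finset.sum_mul]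
  · rw [Finset.sum_apply, Finset.sum_mul]

theorem B_sum_right {D : ℕ} {κ : Type} (s : Finset κ) (f : κ → LV D) (y : LV D) :
    B y (∑ k ∈ s, f k) = ∑ k ∈ s, B y (f k) := by
  rw [B_symm, B_sum_left]
  exact Finset.sum_congr rfl fun i _ => B_symm _ _

theorem qq_symm {n : ℕ} {ι : Type} [Fintype ι] (X : ι → LV n) (j : ι) (T T' : Set ι) :
    qq X j T T' = qq X j T' T := by
  unfold qq
  rw [B_symm (Y X T) (Y X T')]
  ring

theorem qq_self {n : ℕ} {ι : Type} [Fintype ι] (X : ι → LV n) (j : ι) (T : Set ι) :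
    qq X j T T = 0 := by
  unfold qq
  rw [sq]
  ring

theorem exists_adj {κ : Type} {m : ℕ} {S : Finset (Finset κ)} (hpm : PM m S) {s : Finset κ}
    (hs : s ∈ S) {T0 : κ} (hT0 : T0 ∈ s) :
    ∃ (r : Finset κ) (T1 : κ), T0 ∉ r ∧ T1 ∉ r ∧ T0 ≠ T1 ∧ insert T0 r ∈ S ∧ insert T1 r ∈ S ∧
      ∀ T ∈ s, T ≠ T0 → T ∈ r := by
  obtain ⟨s', ⟨hs', hss', hsub⟩, -⟩ := hpm.two s hs T0 hT0
  have hcs := hpm.card s hs
  have hcs' := hpm.card s' hs'
  have hpos : 0 < s.card := Finset.card_pos.2 ⟨T0, hT0⟩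
  have hce : (s.erase T0).card + 1 = m := by
    rw [Finset.card_erase_of_mem hT0]
    omega
  obtain ⟨T1, hT1, hT1r⟩ : ∃ T1 ∈ s', T1 ∉ s.erase T0 := by
    by_contra h
    push Not at h
    have : s' ⊆ s.erase T0 := h
    have := Finset.card_le_card this
    omega
  have hins : insert T1 (s.erase T0) = s' := by
    apply Finset.eq_of_subset_of_card_le
    · exact Finset.insert_subset hT1 hsub
    · rw [Finset.card_insert_of_notMem hT1r]
      omega
  have hins0 : insert T0 (s.erase T0) = s := Finset.insert_erase hT0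
  have hT01 : T0 ≠ T1 := by
    rintro rfl
    exact hss' (hins.symm.trans hins0)
  exact ⟨s.erase T0, T1, Finset.notMem_erase _ _, hT1r, hT01, hins0.symm ▸ hs, hins.symm ▸ hs',
    fun T hT hne => Finset.mem_erase.2 ⟨hne, hT⟩⟩

theorem sum_zero {κ : Type} [Fintype κ] (T : Set κ) (f : κ → ℝ) (hf : ∀ l, 0 ≤ f l)
    (h : ∑ l ∈ Finset.univ.filter (· ∈ T), f l = 0) (k : κ) (hk : k ∈ T) : f k = 0 :=
  (Finset.sum_eq_zero_iff_of_nonneg (fun l _ => hf l)).1 h k
    (Finset.mem_filter.2 ⟨Finset.mem_univ _, hk⟩)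

theorem n11 : TaskN11 := by
  intro hCmp hPM hNCa hNCb _ _ m hm ι _ X X' hX hX' hF hG j o c hCom hj hk k hkj hkf
  have hfin : Module.finrank ℝ (LV (m + 1)) = m + 2 := by simp
  have hFAe : FA X j = FA X' j := by
    unfold FA
    simp only [hF]
  have hFl : Fl X j m = Fl X' j m := by
    ext s
    unfold Fl
    rw [Finset.mem_filter, Finset.mem_filter, hFAe]
  have hCom' : ¬ Com X' j o := by
    rintro ⟨S, h1, h2, h3, h4⟩
    exact hCom ⟨S, (hF S).2 h1, h2, h3, h4⟩
  obtain ⟨hpm, -, htop, hext⟩ := hPM ι (LV (m + 1)) X j m hX.vert hX.span hfin (by omega)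
  -- small sets are proper
  have hrk2 : ∀ k : ι, rk X {j, k} ≤ 2 := by
    intro k
    unfold rk
    rw [Set.image_pair]
    have h1 := finrank_span_finset_le_card (R := ℝ) ({X j, X k} : Finset (LV (m + 1)))
    have h2 : (({X j, X k} : Finset (LV (m + 1))) : Set (LV (m + 1))) = {X j, X k} := by simp
    rw [h2] at h1
    exact h1.trans Finset.card_le_two
  have huniv : rk X Set.univ = m + 2 := by
    unfold rk
    rw [Set.image_univ, hX.span, finrank_top, hfin]
  have hne_univ : ∀ k : ι, ({j, k} : Set ι) ≠ Set.univ := by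
    intro k h
    have := hrk2 k
    rw [h, huniv] at this
    omega
  have hjo : j ≠ o := by
    rintro rfl
    refine hCom ⟨{j}, hX.vert j, ?_, rfl, rfl⟩
    have := hne_univ j
    simpa using this
  have hBjo : B (X j) (X o) < 0 := hX.neg j o hjo
  have hBjo' : B (X' j) (X' o) < 0 := hX'.neg j o hjo
  have hc : 0 < c := by
    rw [hj] at hBjo'
    by_contra h
    have : 0 ≤ c * B (X j) (X o) := by nlinarith
    linarith
  -- properties of the flags
  have hFA : ∀ s ∈ Fl X j m, ∀ T ∈ s, T ∈ FA X j := by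
    intro s hs T hT
    unfold Fl at hs
    rw [Finset.mem_filter] at hs
    exact hs.2.2.1 T hT
  have hchain : ∀ s ∈ Fl X j m, ∀ T ∈ s, ∀ T' ∈ s, T ⊆ T' ∨ T' ⊆ T := by
    intro s hs T hT
    unfold Fl at hs
    rw [Finset.mem_filter] at hs
    exact hs.2.2.2 T hT
  -- Gram equality on proper faces
  have hYj : ∀ T ∈ FA X j, B (Y X T) (X j) = B (Y X' T) (X' j) := by
    intro T hT
    unfold Y
    rw [B_sum_left, B_sum_left]
    refine Finset.sum_congr rfl fun i hi => ?_
    exact hG T hT.1 hT.2.2.2 i (Finset.mem_filter.1 hi).2 j hT.2.1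
  have hYY : ∀ T ∈ FA X j, ∀ T' ∈ FA X j, T ⊆ T' → B (Y X T) (Y X T') = B (Y X' T) (Y X' T') := by
    intro T hT T' hT' hTT
    unfold Y
    rw [B_sum_left, B_sum_left]
    refine Finset.sum_congr rfl fun i hi => ?_
    rw [B_sum_right, B_sum_right]
    refine Finset.sum_congr rfl fun l hl => ?_
    exact hG T' hT'.1 hT'.2.2.2 i (hTT (Finset.mem_filter.1 hi).2) l (Finset.mem_filter.1 hl).2
  have hqq : ∀ s ∈ Fl X j m, ∀ T ∈ s, ∀ T' ∈ s, qq X j T T' = qq X' j T T' := by
    have h1 : ∀ T ∈ FA X j, ∀ T' ∈ FA X j, T ⊆ T' → qq X j T T' = qq X' j T T' := by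
      intro T hT T' hT' hTT
      unfold qq
      rw [hYY T hT T' hT' hTT, hYY T hT T hT subset_rfl, hYY T' hT' T' hT' subset_rfl,
        hYj T hT, hYj T' hT']
    intro s hs T hT T' hT'
    rcases hchain s hs T hT T' hT' with h | h
    · exact h1 T (hFA s hs T hT) T' (hFA s hs T' hT') h
    · rw [qq_symm X, qq_symm X']
      exact h1 T' (hFA s hs T' hT') T (hFA s hs T hT) h
  -- signs
  have hneg : ∀ T ∈ FA X j, B (Y X T) (X j) < 0 := by
    intro T hT
    obtain ⟨-, hjT, hTj, -⟩ := hT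
    have hex : ∃ l ∈ T, l ≠ j := by
      by_contra h
      push Not at h
      apply hTj
      ext l
      exact ⟨fun hl => h l hl, fun hl => by rw [Set.mem_singleton_iff.1 hl]; exact hjT⟩
    obtain ⟨l, hl, hlj⟩ := hex
    unfold Y
    rw [B_sum_left]
    refine Finset.sum_neg' (fun i _ => ?_) ⟨l, Finset.mem_filter.2 ⟨Finset.mem_univ _, hl⟩,
      hX.neg l j hlj⟩
    by_cases hij : i = j
    · rw [hij, hX.null j]
    · exact (hX.neg i j hij).le
  -- the difference of the squared distances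
  have hdiff : ∀ T ∈ FA X j, Fq X' j o T - Fq X j o T =
      2 / ((-(B (Y X T) (X j))) * (c * -(B (X j) (X o)))) *
        ∑ l ∈ Finset.univ.filter (· ∈ T), (c * B (X l) (X o) - B (X' l) (X' o)) := by
    intro T hT
    have h1 : B (Y X T) (X j) ≠ 0 := (hneg T hT).ne
    have h2 : B (X j) (X o) ≠ 0 := hBjo.ne
    have h3 : ∑ l ∈ Finset.univ.filter (· ∈ T), (c * B (X l) (X o) - B (X' l) (X' o)) =
        c * B (Y X T) (X o) - B (Y X' T) (X' o) := by
      unfold Y
      rw [B_sum_left, B_sum_left, Finset.sum_sub_distrib, Finset.mul_sum]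
    rw [h3]
    unfold Fq
    rw [← hYY T hT T hT subset_rfl, ← hYj T hT, hj]
    have hc' : c ≠ 0 := hc.ne'
    field_simp
    ring
  have hle : ∀ s ∈ Fl X j m, ∀ T ∈ s, Fq X j o T ≤ Fq X' j o T := by
    intro s hs T hT
    have hTA := hFA s hs T hT
    have h1 := hdiff T hTA
    have h2 := hneg T hTA
    have h3 : 0 ≤ 2 / ((-(B (Y X T) (X j))) * (c * -(B (X j) (X o)))) *
        ∑ l ∈ Finset.univ.filter (· ∈ T), (c * B (X l) (X o) - B (X' l) (X' o)) := by
      apply mul_nonneg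
      · apply div_nonneg (by norm_num)
        apply mul_nonneg (by linarith)
        apply mul_nonneg hc.le (by linarith)
      · exact Finset.sum_nonneg fun l _ => by linarith [hk l]
    linarith
  -- the comparison
  obtain ⟨hpd, hsum⟩ := hNCa m hm ι X hX j o hCom
  obtain ⟨hpd', hsum'⟩ := hNCa m hm ι X' hX' j o hCom'
  have hb := hNCb m hm ι X hX j o hCom
  have hb' := hNCb m hm ι X' hX' j o hCom'
  have key := hCmp (Set ι) (qq X j) m hm (Fl X j m) hpm (qq_symm X j) (qq_self X j)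
    (Fq X j o) (Fq X' j o) ⟨hpd, fun r T T' h1 h2 h3 h4 h5 => (hb r T T' h1 h2 h3 h4 h5).1⟩
    ⟨fun s hs => by
      rw [GMq_congr (hqq s hs)]
      exact hpd' s (hFl ▸ hs), fun r T T' h1 h2 h3 h4 h5 => by
      rw [kr_congr (hqq _ h4), kr_congr (hqq _ h5)]
      exact (hb' r T T' h1 h2 h3 (hFl ▸ h4) (hFl ▸ h5)).1⟩ hle
    (by
      rw [hsum, ← hsum', ← hFl]
      exact Finset.sum_congr rfl fun s hs => (omq_congr (hqq s hs)).symm)
  -- a flag through the edge
  have hedge : ({j, k} : Set ι) ∈ FA X j := by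
    refine ⟨hkf, by simp, ?_, hne_univ k⟩
    intro h
    have : k ∈ ({j} : Set ι) := by
      rw [← h]
      simp
    exact hkj this
  obtain ⟨s, hs, hsc⟩ := hext {({j, k} : Set ι)}
    (fun T hT => by rw [Finset.mem_singleton.1 hT]; exact hedge)
    (fun T hT T' hT' => by
      rw [Finset.mem_singleton.1 hT, Finset.mem_singleton.1 hT']
      exact Or.inl subset_rfl)
  have hks : ({j, k} : Set ι) ∈ s := hsc (Finset.mem_singleton_self _)
  obtain ⟨T0, hT0, hrk0, -⟩ := htop s hs
  have hne0 : ({j, k} : Set ι) ≠ T0 := by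
    rintro h
    have := hrk2 k
    rw [h, hrk0] at this
    omega
  obtain ⟨r, T1, hT0r, hT1r, hT01, hin0, hin1, hrest⟩ := exists_adj hpm hs hT0
  have hpos := (hb r T0 T1 hT0r hT1r hT01 hin0 hin1).2 hrk0
  have heq := key r T0 T1 hT0r hT1r hT01 hin0 hin1 hpos {j, k} (hrest _ hks hne0)
  have hd := hdiff {j, k} hedge
  rw [heq, sub_self] at hd
  have h2 := hneg {j, k} hedge
  have h3 : 0 < 2 / ((-(B (Y X {j, k}) (X j))) * (c * -(B (X j) (X o)))) := by
    apply div_pos (by norm_num)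
    apply mul_pos (by linarith)
    apply mul_pos hc (by linarith)
  rcases mul_eq_zero.1 hd.symm with h | h
  · exact absurd h h3.ne'
  · have h5 := sum_zero _ (fun l => c * B (X l) (X o) - B (X' l) (X' o))
      (fun l => by linarith [hk l]) h k (by simp)
    linarith

end Pool.Agent.H257R3.ESN11
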