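import Pool.Agent.H904R6.CR.Stmts

set_option autoImplicit false

namespace Pool.Agent.H257R3.CR

open Pool.Agent.H904R6.CR

theorem ag_symm {k : ℕ} {Z W : Om} (h : ag k Z W) : ag k W Z := by
  obtain ⟨h1, h2, h3, h4⟩ := h
  exact ⟨fun x hx y hy => (h1 x hx y hy).symm, fun x hx y hy => (h2 x hx y hy).symm,
    fun n hn => (h3 n hn).symm, fun n hn => (h4 n hn).symm⟩

theorem ag_mono {k l : ℕ} (hkl : k ≤ l) {Z W : Om} (h : ag l Z W) : ag k Z W := by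
  obtain ⟨h1, h2, h3, h4⟩ := h
  exact ⟨fun x hx y hy => h1 x (by omega) y (by omega),
    fun x hx y hy => h2 x (by omega) y (by omega),
    fun n hn => h3 n (by omega), fun n hn => h4 n (by omega)⟩

theorem kk_congr {Γ : Fn} (hΓ : GoodFn Γ) {F : Finset ℕ} {k m M : ℕ} (hM : M ≤ k) {Z W : Om}
    (h : ag k Z W) {E : Finset ℕ} {v : ℕ} (hK : KK Γ F Z m M E v) : KK Γ F W m M E v := by
  obtain ⟨h1, h2, h3, h4⟩ := h
  obtain ⟨hne, hE, hc, hv, hvM, hg⟩ := hK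
  refine ⟨hne, fun x hx => ?_, fun x hx y hy hxy => ?_, hv, hvM, ?_⟩
  · obtain ⟨a, b, c⟩ := hE x hx
    exact ⟨a, b, by rw [← h3 x (by omega)]; exact c⟩
  · have a := (hE x hx).2.1
    have b := (hE y hy).2.1
    rw [← h2 x (by omega) y (by omega)]
    exact hc x hx y hy hxy
  · exact hΓ.dep v M _ _ _ _ (fun _ _ => rfl)
      (fun x hx y hy => h1 x (by omega) y (by omega)) hg

theorem vv_congr {Γ : Fn} (hΓ : GoodFn Γ) {F : Finset ℕ} {k m M : ℕ} (hM : M ≤ k) {Z W : Om}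
    (h : ag k Z W) {E : Finset ℕ} {v : ℕ} (hK : VV Γ F Z m M E v) : VV Γ F W m M E v := by
  obtain ⟨h1, h2, h3, h4⟩ := h
  obtain ⟨hE, hc, hv, hvM, hg⟩ := hK
  refine ⟨fun x hx => ?_, fun x hx y hy z hz hxy hyz => ?_, hv, hvM, ?_⟩
  · obtain ⟨a, b, c⟩ := hE x hx
    exact ⟨a, b, by rw [← h3 x (by omega)]; exact c⟩
  · have a := (hE x hx).2.1
    have b := (hE y hy).2.1
    have c := (hE z hz).2.1
    rw [← h2 x (by omega) y (by omega), ← h2 x (by omega) z (by omega),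
      ← h2 y (by omega) z (by omega)]
    exact hc x hx y hy z hz hxy hyz
  · exact hΓ.dep v M _ _ _ _ (fun _ _ => rfl)
      (fun x hx y hy => h1 x (by omega) y (by omega)) hg

theorem ctr_congr {Γ1 Γ : Fn} (h1 : GoodFn Γ1) (h2 : GoodFn Γ) {F1 F : Finset ℕ} {i1 i : Bool}
    {k m : ℕ} {α β D : S} {Z W : Om} (h : ag k Z W) (hαβ : ∀ n, m ≤ n → n < k → α n = β n)
    (hC : Ctr Γ1 F1 Γ F i1 i k m α D Z) : Ctr Γ1 F1 Γ F i1 i k m β D W := by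
  rcases hC with ⟨E, v, M, hM, hK, hD, hv⟩ | ⟨E, v, M, hM, hK, hD, hv⟩
  · refine Or.inl ⟨E, v, M, hM, kk_congr h1 hM h hK, hD, ?_⟩
    obtain ⟨-, -, -, hmv, hvM, -⟩ := hK
    rw [← hαβ v hmv (by omega)]
    exact hv
  · refine Or.inr ⟨E, v, M, hM, vv_congr h2 hM h hK, hD, ?_⟩
    obtain ⟨-, -, hmv, hvM, -⟩ := hK
    rw [← hαβ v hmv (by omega)]
    exact hv

theorem taskGoodC : TaskGoodC := by
  intro Γ1 F1 Γ F i1 i h1 h2
  refine ⟨?_, ?_, ?_, ?_, ?_⟩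
  · rintro m k Z W h ⟨α, hα⟩
    exact ⟨α, fun D => ctr_congr h1 h2 h (fun _ _ _ => rfl) (hα D)⟩
  · rintro m b k α β Z W h hαβ ⟨hbk, D, hD⟩
    refine ⟨hbk, D, fun hC => hD ?_⟩
    exact ctr_congr h1 h2 (ag_symm (ag_mono hbk h)) (fun n hn hnb => (hαβ n hn hnb).symm) hC
  · rintro m b k l α Z hkl ⟨hbk, hD⟩
    exact ⟨hbk.trans hkl, hD⟩
  · intro k C D Z W _ _ h
    exact h
  · intro k l C Z _ h
    exact h

end Pool.Agent.H257R3.CR
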