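import Pool.Agent.H136R4.Stmts

set_option autoImplicit false

namespace Pool.Agent.H257R3.GLSA

open MvPolynomial Pool.Agent.H136R4

theorem E_succ {a : ℕ → ℂ} {n : ℕ} {v : ℕ → ℂ} (h : v ∈ E a (n + 1)) : v ∈ E a n :=
  ⟨h.1, fun i hi => h.2 i (by omega)⟩

theorem bdd (hB : BoundStmt) {a : ℕ → ℂ} (ha : Adm a) (n : ℕ) (p : MvPolynomial ℕ ℂ)
    (hp : p ∈ PP n) : ∃ L : ℝ, 0 ≤ L ∧ ∀ v ∈ E a n, ‖eval v p‖ ≤ L := by
  unfold PP at hp
  rw [MvPolynomial.supported_eq_adjoin_X] at hp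
  induction hp using Algebra.adjoin_induction with
  | mem x hx =>
    obtain ⟨i, hi, rfl⟩ := hx
    refine ⟨2, by norm_num, fun v hv => ?_⟩
    rw [eval_X]
    exact hB a ha n v hv i hi
  | algebraMap c =>
    refine ⟨‖c‖, norm_nonneg _, fun v hv => ?_⟩
    rw [MvPolynomial.algebraMap_eq, eval_C]
  | add x y _ _ h1 h2 =>
    obtain ⟨L1, h10, h11⟩ := h1
    obtain ⟨L2, h20, h21⟩ := h2
    refine ⟨L1 + L2, by positivity, fun v hv => ?_⟩
    rw [map_add]
    exact (norm_add_le _ _).trans (add_le_add (h11 v hv) (h21 v hv))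
  | mul x y _ _ h1 h2 =>
    obtain ⟨L1, h10, h11⟩ := h1
    obtain ⟨L2, h20, h21⟩ := h2
    refine ⟨L1 * L2, by positivity, fun v hv => ?_⟩
    rw [map_mul, norm_mul]
    exact mul_le_mul (h11 v hv) (h21 v hv) (norm_nonneg _) h10

/-- the perturbed point -/
noncomputable def P0 (ε : ℕ → ℝ) (n : ℕ) (e : ℝ) (v : ℕ → ℂ) : Fin 3 → ℂ :=
  Pn ε n v ((e : ℂ) * v (n + 1)) ((e : ℂ) * (n : ℂ) * v (n + 1))

/-- the main part of `NA` -/
def NA' (a : ℕ → ℂ) (ε : ℕ → ℝ) (n : ℕ) (M r : ℝ) : Prop :=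
  ∀ p ∈ PP n, ∀ L : ℝ, (∀ v ∈ E a n, ‖eval v p‖ ≤ L) →
    ∀ θ : ℝ, 0 < θ → ∃ S : MvPolynomial (Fin 3) ℂ,
      (∀ v ∈ E a n, ‖eval (Pn ε n v 0 0) S - eval v p‖ ≤ θ) ∧
      (∀ v ∈ E a n, ∀ h k : ℂ, ‖h‖ ≤ r → ‖k‖ ≤ r → ‖eval (Pn ε n v h k) S‖ ≤ M * L)

theorem near (hB : BoundStmt) (hLip : LipStmt) {a : ℕ → ℂ} (ha : Adm a) {ε : ℕ → ℝ} {n : ℕ}
    {M r : ℝ} (hr : 0 < r) (hNA : NA' a ε n M r)
    {p : MvPolynomial ℕ ℂ} (hp : p ∈ PP n) {L : ℝ}
    (hL : ∀ v ∈ E a n, ‖eval v p‖ ≤ L) {e : ℝ} (he : 0 < e)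
    (her : 2 * ((n : ℝ) + 1) * e ≤ r) :
    ∃ S : MvPolynomial (Fin 3) ℂ, ∀ v ∈ E a (n + 1),
      ‖eval (P0 ε n e v) S - eval v p‖ ≤ (1 + 4 * M * L * ((n : ℝ) + 1) / r) * e := by
  obtain ⟨S, hS1, hS2⟩ := hNA p hp L hL e he
  refine ⟨S, fun v hv => ?_⟩
  have hv' := E_succ hv
  have hv2 : ‖v (n + 1)‖ ≤ 2 := hB a ha (n + 1) v hv (n + 1) le_rfl
  have hn0 : (0 : ℝ) ≤ n := Nat.cast_nonneg n
  have hh : ‖(e : ℂ) * v (n + 1)‖ ≤ 2 * ((n : ℝ) + 1) * e := by
    rw [norm_mul, Complex.norm_real, Real.norm_of_nonneg he.le]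
    nlinarith [mul_nonneg hn0 he.le]
  have hk : ‖(e : ℂ) * (n : ℂ) * v (n + 1)‖ ≤ 2 * ((n : ℝ) + 1) * e := by
    rw [norm_mul, norm_mul, Complex.norm_real, Real.norm_of_nonneg he.le, Complex.norm_natCast]
    have := mul_le_mul_of_nonneg_left hv2 (mul_nonneg he.le hn0)
    nlinarith
  have h1 := hLip S (v 0) (∑ i ∈ Finset.range n, (ε i : ℂ) * v (i + 1))
    (∑ i ∈ Finset.range n, (ε i : ℂ) * (i : ℂ) * v (i + 1)) r (M * L) hr
    (fun h k hh hk => hS2 v hv' h k hh hk) _ _ _ hh hk her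
  have h2 := hS1 v hv'
  have h3 : Pn ε n v 0 0 = ![v 0, ∑ i ∈ Finset.range n, (ε i : ℂ) * v (i + 1),
      ∑ i ∈ Finset.range n, (ε i : ℂ) * (i : ℂ) * v (i + 1)] := by
    unfold Pn
    rw [add_zero, add_zero]
  rw [h3] at h2
  have h4 : eval (P0 ε n e v) S - eval v p =
      (eval ![v 0, (∑ i ∈ Finset.range n, (ε i : ℂ) * v (i + 1)) + (e : ℂ) * v (n + 1),
        (∑ i ∈ Finset.range n, (ε i : ℂ) * (i : ℂ) * v (i + 1)) + (e : ℂ) * (n : ℂ) * v (n + 1)] S
      - eval ![v 0, ∑ i ∈ Finset.range n, (ε i : ℂ) * v (i + 1),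
      ∑ i ∈ Finset.range n, (ε i : ℂ) * (i : ℂ) * v (i + 1)] S) +
      (eval ![v 0, ∑ i ∈ Finset.range n, (ε i : ℂ) * v (i + 1),
      ∑ i ∈ Finset.range n, (ε i : ℂ) * (i : ℂ) * v (i + 1)] S - eval v p) := by
    unfold P0 Pn
    ring
  rw [h4]
  refine (norm_add_le _ _).trans ((add_le_add h1 h2).trans (le_of_eq ?_))
  field_simp
  ring

section main

variable (a : ℕ → ℂ) (ε : ℕ → ℝ) (n : ℕ)

/-- evaluation on the level `n + 1` -/
noncomputable def ev : MvPolynomial ℕ ℂ →ₐ[ℂ] (↥(E a (n + 1)) → ℂ) where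
  toFun p v := eval v.1 p
  map_one' := by ext v; simp
  map_mul' p q := by ext v; simp
  map_zero' := by ext v; simp
  map_add' p q := by ext v; simp
  commutes' c := by ext v; simp [MvPolynomial.algebraMap_eq]

@[simp] theorem ev_apply (p : MvPolynomial ℕ ℂ) (v : ↥(E a (n + 1))) :
    ev a n p v = eval v.1 p := rfl

/-- the ring -/
noncomputable abbrev RR : Subalgebra ℂ (↥(E a (n + 1)) → ℂ) := (PP n).map (ev a n)

/-- the families -/
abbrev MM : Type := ℝ → ↥(E a (n + 1)) → ℂ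

theorem smul_app (f : RR a n) (x : MM a n) (e : ℝ) (v : ↥(E a (n + 1))) :
    (f • x) e v = f.1 v * x e v := rfl

/-- small and nicely approximable families -/
def Nice (x : MM a n) : Prop :=
  ∃ K e₀ : ℝ, 0 ≤ K ∧ 0 < e₀ ∧ ∀ e : ℝ, 0 < e → e ≤ e₀ →
    (∀ v, ‖x e v‖ ≤ K * e) ∧ ∃ G : MvPolynomial (Fin 3) ℂ,
      ∀ v, ‖eval (P0 ε n e v.1) G - x e v‖ ≤ K * e ^ 2

theorem Nice.add {x y : MM a n} (hx : Nice a ε n x) (hy : Nice a ε n y) :
    Nice a ε n (x + y) := by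
  obtain ⟨K1, e1, hK1, he1, h1⟩ := hx
  obtain ⟨K2, e2, hK2, he2, h2⟩ := hy
  refine ⟨K1 + K2, min e1 e2, by positivity, lt_min he1 he2, fun e he hee => ?_⟩
  obtain ⟨h11, G1, h12⟩ := h1 e he (hee.trans (min_le_left _ _))
  obtain ⟨h21, G2, h22⟩ := h2 e he (hee.trans (min_le_right _ _))
  refine ⟨fun v => ?_, G1 + G2, fun v => ?_⟩
  · have : (x + y) e v = x e v + y e v := rfl
    rw [this, add_mul]
    exact (norm_add_le _ _).trans (add_le_add (h11 v) (h21 v))
  · have : eval (P0 ε n e v.1) (G1 + G2) - (x + y) e v =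
        (eval (P0 ε n e v.1) G1 - x e v) + (eval (P0 ε n e v.1) G2 - y e v) := by
      have : (x + y) e v = x e v + y e v := rfl
      rw [this, map_add]
      ring
    rw [this, add_mul]
    exact (norm_add_le _ _).trans (add_le_add (h12 v) (h22 v))

theorem Nice.smul (hB : BoundStmt) (hLip : LipStmt) (ha : Adm a) {M r : ℝ} (hM : 0 < M)
    (hr : 0 < r) (hNA : NA' a ε n M r) (f : RR a n) {x : MM a n} (hx : Nice a ε n x) :
    Nice a ε n (f • x) := by
  obtain ⟨K, e₀, hK, he₀, h⟩ := hx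
  obtain ⟨f, hf⟩ := f
  obtain ⟨p, hp, rfl⟩ := hf
  obtain ⟨L, hL0, hL⟩ := bdd hB ha n p hp
  obtain ⟨C, hC⟩ : ∃ C : ℝ, C = 1 + 4 * M * L * ((n : ℝ) + 1) / r := ⟨_, rfl⟩
  have hC0 : 0 ≤ C := by
    rw [hC]
    positivity
  have hn1 : (0 : ℝ) < 2 * ((n : ℝ) + 1) := by positivity
  refine ⟨L * K + C * K + C * K, min e₀ (min 1 (r / (2 * ((n : ℝ) + 1)))), by positivity,
    lt_min he₀ (lt_min one_pos (by positivity)), fun e he hee => ?_⟩
  have he0 : e ≤ e₀ := hee.trans (min_le_left _ _)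
  have he1 : e ≤ 1 := hee.trans ((min_le_right _ _).trans (min_le_left _ _))
  have her : 2 * ((n : ℝ) + 1) * e ≤ r := by
    have := hee.trans ((min_le_right _ _).trans (min_le_right _ _))
    rw [le_div_iff₀ hn1] at this
    linarith
  obtain ⟨h1, G, h2⟩ := h e he he0
  obtain ⟨S, hS⟩ := near hB hLip ha hr hNA hp hL he her
  rw [← hC] at hS
  have hL' : ∀ v : ↥(E a (n + 1)), ‖eval v.1 p‖ ≤ L := fun v => hL v.1 (E_succ v.2)
  refine ⟨fun v => ?_, S * G, fun v => ?_⟩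
  · rw [smul_app]
    change ‖eval v.1 p * x e v‖ ≤ _
    rw [norm_mul]
    have h3 := mul_le_mul (hL' v) (h1 v) (norm_nonneg _) hL0
    have h4 : 0 ≤ (C * K + C * K) * e := by positivity
    nlinarith
  · rw [smul_app]
    change ‖eval (P0 ε n e v.1) (S * G) - eval v.1 p * x e v‖ ≤ _
    have h5 : eval (P0 ε n e v.1) (S * G) - eval v.1 p * x e v =
        eval v.1 p * (eval (P0 ε n e v.1) G - x e v) +
        (eval (P0 ε n e v.1) S - eval v.1 p) * x e v +
        (eval (P0 ε n e v.1) S - eval v.1 p) * (eval (P0 ε n e v.1) G - x e v) := by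
      rw [map_mul]
      ring
    rw [h5]
    have h6 : ‖eval v.1 p * (eval (P0 ε n e v.1) G - x e v)‖ ≤ L * (K * e ^ 2) := by
      rw [norm_mul]
      exact mul_le_mul (hL' v) (h2 v) (norm_nonneg _) hL0
    have h7 : ‖(eval (P0 ε n e v.1) S - eval v.1 p) * x e v‖ ≤ (C * e) * (K * e) := by
      rw [norm_mul]
      exact mul_le_mul (hS v.1 v.2) (h1 v) (norm_nonneg _) (by positivity)
    have h8 : ‖(eval (P0 ε n e v.1) S - eval v.1 p) * (eval (P0 ε n e v.1) G - x e v)‖ ≤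
        (C * e) * (K * e ^ 2) := by
      rw [norm_mul]
      exact mul_le_mul (hS v.1 v.2) (h2 v) (norm_nonneg _) (by positivity)
    have h9 : (C * e) * (K * e ^ 2) ≤ C * K * e ^ 2 := by
      have : 0 ≤ C * K * e ^ 2 := by positivity
      nlinarith
    calc _ ≤ L * (K * e ^ 2) + (C * e) * (K * e) + (C * e) * (K * e ^ 2) :=
          (norm_add_le _ _).trans (add_le_add ((norm_add_le _ _).trans (add_le_add h6 h7)) h8)
      _ ≤ L * (K * e ^ 2) + (C * e) * (K * e) + C * K * e ^ 2 := by linarith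
      _ = (L * K + C * K + C * K) * e ^ 2 := by ring

/-- the submodule -/
noncomputable def NN (hB : BoundStmt) (hLip : LipStmt) (ha : Adm a) {M r : ℝ} (hM : 0 < M)
    (hr : 0 < r) (hNA : NA' a ε n M r) : Submodule (RR a n) (MM a n) where
  carrier := {x | Nice a ε n x}
  add_mem' := fun hx hy => Nice.add a ε n hx hy
  zero_mem' := by
    refine ⟨0, 1, le_rfl, one_pos, fun e he hee => ⟨fun v => ?_, 0, fun v => ?_⟩⟩
    · change ‖(0 : ℂ)‖ ≤ _
      simp
    · change ‖eval (P0 ε n e v.1) 0 - (0 : ℂ)‖ ≤ _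
      simp
  smul_mem' := fun f x hx => Nice.smul a ε n hB hLip ha hM hr hNA f hx

end main

theorem par_le (i : ℕ) : par i ≤ i := by
  unfold par
  split_ifs with h
  · omega
  · have h1 : Nat.pair (Nat.unpair i).1 ((Nat.unpair i).2 - 1) <
        Nat.pair (Nat.unpair i).1 (Nat.unpair i).2 := Nat.pair_lt_pair_right _ (by omega)
    rw [Nat.pair_unpair] at h1
    omega

theorem saStmt : BoundStmt → LipStmt → ElimStmt → SAStmt := by
  classical
  intro hB hLip hElim a ha ε n hε hNA0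
  obtain ⟨M, r, hM, hr, hNA⟩ := hNA0
  have hNA' : NA' a ε n M r := hNA
  have hn1 : (0 : ℝ) < 2 * ((n : ℝ) + 1) := by positivity
  obtain ⟨C, hC⟩ : ∃ C : ℝ, C = 1 + 4 * M * 2 * ((n : ℝ) + 1) / r := ⟨_, rfl⟩
  have hC0 : 0 ≤ C := by
    rw [hC]
    positivity
  obtain ⟨e1, he1⟩ : ∃ e1 : ℝ, e1 = r / (2 * ((n : ℝ) + 1)) := ⟨_, rfl⟩
  have he10 : 0 < e1 := by rw [he1]; positivity
  have hX : ∀ i ≤ n, (X i : MvPolynomial ℕ ℂ) ∈ PP n := fun i hi =>
    (MvPolynomial.X_mem_supported).2 hi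
  -- choice of the polynomials
  have hch : ∀ i : ℕ, ∀ e : ℝ, ∃ S : MvPolynomial (Fin 3) ℂ, (i = 0 → S = X 0) ∧
      (i ≤ n → 0 < e → e ≤ e1 → ∀ v ∈ E a (n + 1),
        ‖eval (P0 ε n e v) S - v i‖ ≤ C * e) := by
    intro i e
    by_cases hi : i = 0
    · refine ⟨X 0, fun _ => rfl, fun _ he _ v hv => ?_⟩
      subst hi
      have : eval (P0 ε n e v) (X 0) - v 0 = 0 := by
        rw [eval_X]
        simp [P0, Pn]
      rw [this, norm_zero]
      positivity
    · by_cases h : i ≤ n ∧ 0 < e ∧ e ≤ e1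
      · obtain ⟨h1, h2, h3⟩ := h
        have her : 2 * ((n : ℝ) + 1) * e ≤ r := by
          rw [he1, le_div_iff₀ hn1] at h3
          linarith
        obtain ⟨S, hS⟩ := near (L := 2) hB hLip ha hr hNA' (hX i h1)
          (fun v hv => by rw [eval_X]; exact hB a ha n v hv i h1) h2 her
        refine ⟨S, fun h0 => absurd h0 hi, fun _ _ _ v hv => ?_⟩
        have := hS v hv
        rw [eval_X, ← hC] at this
        exact this
      · refine ⟨X 0, fun _ => rfl, fun a1 a2 a3 => absurd ⟨a1, a2, a3⟩ h⟩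
  choose Sf hSf0 hSf using hch
  -- the data of the elimination
  let v : ℕ → RR a n := fun i => if h : i ≤ n then ⟨ev a n (X i), ⟨X i, hX i h, rfl⟩⟩ else 0
  let δ : ℕ → MM a n := fun i e w => eval (P0 ε n e w.1) (Sf i e) - w.1 i
  let σ : MM a n := fun e w => (e : ℂ) * w.1 (n + 1)
  have hv : ∀ i ≤ n, ∀ w : ↥(E a (n + 1)), (v i).1 w = w.1 i := by
    intro i hi w
    simp only [v, dif_pos hi]
    rw [ev_apply, eval_X]
  have hδ : ∀ i ≤ n, ∀ e : ℝ, 0 < e → e ≤ e1 → ∀ w, ‖δ i e w‖ ≤ C * e :=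
    fun i hi e he hee w => hSf i e hi he hee w.1 w.2
  have hmem : ∀ x : MM a n, Nice a ε n x ↔ x ∈ NN a ε n hB hLip ha hM hr hNA' :=
    fun x => Iff.rfl
  have key := hElim (RR a n) (MM a n) a ε n v δ σ (NN a ε n hB hLip ha hM hr hNA') ha.inj hε
    ?_ ?_ ?_ ?_ ?_
  · rw [← hmem] at key
    obtain ⟨K, e₀, hK, he₀, h⟩ := key
    refine ⟨K + 1, e₀, by linarith, he₀, fun e he hee => ?_⟩
    obtain ⟨-, G, hG⟩ := h e he hee
    refine ⟨MvPolynomial.C ((1 / e : ℝ) : ℂ) * G, fun w hw => ?_⟩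
    have h1 := hG ⟨w, hw⟩
    have h2 : eval (Pn ε n w ((e : ℂ) * w (n + 1)) ((e : ℂ) * (n : ℂ) * w (n + 1)))
        (MvPolynomial.C ((1 / e : ℝ) : ℂ) * G) - w (n + 1) =
        ((1 / e : ℝ) : ℂ) * (eval (P0 ε n e w) G - (e : ℂ) * w (n + 1)) := by
      rw [map_mul, eval_C]
      have he' : (e : ℂ) ≠ 0 := by exact_mod_cast he.ne'
      unfold P0
      push_cast
      field_simp
    rw [h2, norm_mul, Complex.norm_real, Real.norm_of_nonneg (by positivity)]
    change ‖eval (P0 ε n e w) G - (e : ℂ) * w (n + 1)‖ ≤ K * e ^ 2 at h1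
    calc 1 / e * ‖eval (P0 ε n e w) G - (e : ℂ) * w (n + 1)‖ ≤ 1 / e * (K * e ^ 2) :=
          mul_le_mul_of_nonneg_left h1 (by positivity)
      _ = K * e := by field_simp
      _ ≤ (K + 1) * e := by nlinarith
  · -- relations of the v
    intro i hi
    apply Subtype.ext
    funext w
    have h1 := w.2.2 i (by omega)
    change (v (i + 1)).1 w ^ 2 = (v (par i)).1 w - (algebraMap ℂ (RR a n) (sh a i)).1 w
    rw [hv (i + 1) (by omega), hv (par i) ((par_le i).trans hi.le), h1]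
    rfl
  · -- δ 0 = 0
    funext e w
    change eval (P0 ε n e w.1) (Sf 0 e) - w.1 0 = 0
    rw [hSf0 0 e rfl, eval_X]
    simp [P0, Pn]
  · -- first relations
    intro i hi
    rw [← hmem]
    have hpi : par i ≤ n := (par_le i).trans hi.le
    refine ⟨C ^ 2 + 5 * C, e1, by positivity, he10, fun e he hee => ?_⟩
    have hval : ∀ w, (δ (par i) - (2 * v (i + 1)) • δ (i + 1)) e w =
        δ (par i) e w - 2 * w.1 (i + 1) * δ (i + 1) e w := by
      intro w
      change δ (par i) e w - ((2 * v (i + 1) : RR a n)).1 w * δ (i + 1) e w = _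
      have : ((2 * v (i + 1) : RR a n)).1 w = 2 * w.1 (i + 1) := by
        rw [← hv (i + 1) (by omega) w]
        rfl
      rw [this]
    refine ⟨fun w => ?_, -(Sf (i + 1) e ^ 2 - Sf (par i) e + MvPolynomial.C (sh a i)), fun w => ?_⟩
    · rw [hval w]
      have h1 := hδ (par i) hpi e he hee w
      have h2 := hδ (i + 1) (by omega) e he hee w
      have h3 : ‖w.1 (i + 1)‖ ≤ 2 := hB a ha (n + 1) w.1 w.2 (i + 1) (by omega)
      have h4 : ‖2 * w.1 (i + 1) * δ (i + 1) e w‖ ≤ 4 * (C * e) := by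
        rw [norm_mul, norm_mul, Complex.norm_ofNat]
        have : 0 ≤ C * e := by positivity
        nlinarith [norm_nonneg (δ (i + 1) e w), norm_nonneg (w.1 (i + 1))]
      refine (norm_sub_le _ _).trans ?_
      nlinarith [sq_nonneg C]
    · rw [hval w]
      have h2 := hδ (i + 1) (by omega) e he hee w
      have hrel := w.2.2 i (by omega)
      have h5 : eval (P0 ε n e w.1) (-(Sf (i + 1) e ^ 2 - Sf (par i) e + MvPolynomial.C (sh a i))) -
          (δ (par i) e w - 2 * w.1 (i + 1) * δ (i + 1) e w) = -(δ (i + 1) e w) ^ 2 := by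
        simp only [δ, map_neg, map_add, map_sub, map_pow, eval_C]
        linear_combination (-1 : ℂ) * hrel
      rw [h5, norm_neg, norm_pow]
      have h6 : ‖δ (i + 1) e w‖ ^ 2 ≤ (C * e) ^ 2 := by
        gcongr
      have h7 : 0 ≤ C * e ^ 2 := by positivity
      nlinarith
  · -- second relation
    rw [← hmem]
    refine ⟨2 + ∑ i ∈ Finset.range n, ε i * C, e1, ?_, he10, fun e he hee => ?_⟩
    · have : 0 ≤ ∑ i ∈ Finset.range n, ε i * C := Finset.sum_nonneg fun i hi =>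
        mul_nonneg (hε i (Finset.mem_range.1 hi)).le hC0
      linarith
    have hval : ∀ w, (σ - ∑ i ∈ Finset.range n, algebraMap ℂ (RR a n) (ε i : ℂ) • δ (i + 1)) e w =
        (e : ℂ) * w.1 (n + 1) - ∑ i ∈ Finset.range n, (ε i : ℂ) * δ (i + 1) e w := by
      intro w
      rw [Pi.sub_apply, Pi.sub_apply, Finset.sum_apply, Finset.sum_apply]
      rfl
    refine ⟨fun w => ?_, X 1 - ∑ i ∈ Finset.range n, MvPolynomial.C (ε i : ℂ) * Sf (i + 1) e,
      fun w => ?_⟩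
    · rw [hval w, add_mul]
      refine (norm_sub_le _ _).trans (add_le_add ?_ ?_)
      · have h3 : ‖w.1 (n + 1)‖ ≤ 2 := hB a ha (n + 1) w.1 w.2 (n + 1) le_rfl
        rw [norm_mul, Complex.norm_real, Real.norm_of_nonneg he.le]
        nlinarith
      · rw [Finset.sum_mul]
        refine (norm_sum_le _ _).trans (Finset.sum_le_sum fun i hi => ?_)
        have hi' := Finset.mem_range.1 hi
        rw [norm_mul, Complex.norm_real, Real.norm_of_nonneg (hε i hi').le, mul_assoc]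
        exact mul_le_mul_of_nonneg_left (hδ (i + 1) (by omega) e he hee w) (hε i hi').le
    · have h5 : eval (P0 ε n e w.1)
          (X 1 - ∑ i ∈ Finset.range n, MvPolynomial.C (ε i : ℂ) * Sf (i + 1) e) -
          ((e : ℂ) * w.1 (n + 1) - ∑ i ∈ Finset.range n, (ε i : ℂ) * δ (i + 1) e w) = 0 := by
        have h6 : ∑ i ∈ Finset.range n, (ε i : ℂ) * δ (i + 1) e w =
            ∑ i ∈ Finset.range n, (ε i : ℂ) * eval (P0 ε n e w.1) (Sf (i + 1) e) -
            ∑ i ∈ Finset.range n, (ε i : ℂ) * w.1 (i + 1) := by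
          rw [← Finset.sum_sub_distrib]
          refine Finset.sum_congr rfl fun i _ => ?_
          simp only [δ]
          ring
        rw [h6, map_sub, map_sum, eval_X]
        simp only [map_mul, eval_C]
        have h7 : P0 ε n e w.1 1 = (∑ i ∈ Finset.range n, (ε i : ℂ) * w.1 (i + 1)) +
            (e : ℂ) * w.1 (n + 1) := rfl
        rw [h7]
        ring
      rw [hval w, h5, norm_zero]
      have : 0 ≤ ∑ i ∈ Finset.range n, ε i * C := Finset.sum_nonneg fun i hi =>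
        mul_nonneg (hε i (Finset.mem_range.1 hi)).le hC0
      positivity
  · -- third relation
    rw [← hmem]
    refine ⟨2 * n + ∑ i ∈ Finset.range n, ε i * i * C, e1, ?_, he10, fun e he hee => ?_⟩
    · have : 0 ≤ ∑ i ∈ Finset.range n, ε i * i * C := Finset.sum_nonneg fun i hi =>
        mul_nonneg (mul_nonneg (hε i (Finset.mem_range.1 hi)).le (Nat.cast_nonneg i)) hC0
      positivity
    have hval : ∀ w, (((n : RR a n)) • σ - ∑ i ∈ Finset.range n,
        algebraMap ℂ (RR a n) ((ε i : ℂ) * (i : ℂ)) • δ (i + 1)) e w =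
        (e : ℂ) * n * w.1 (n + 1) - ∑ i ∈ Finset.range n, (ε i : ℂ) * (i : ℂ) * δ (i + 1) e w := by
      intro w
      rw [Pi.sub_apply, Pi.sub_apply, Finset.sum_apply, Finset.sum_apply]
      have : (((n : RR a n)) • σ) e w = (n : ℂ) * ((e : ℂ) * w.1 (n + 1)) := by
        rw [smul_app]
        have h1 : ((n : RR a n)).1 w = (n : ℂ) := by
          have : ((n : RR a n)).1 = (n : ↥(E a (n + 1)) → ℂ) := by
            push_cast
            rfl
          rw [this]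
          simp
        rw [h1]
      rw [this]
      have h2 : ∀ i ∈ Finset.range n, (algebraMap ℂ (RR a n) ((ε i : ℂ) * (i : ℂ)) • δ (i + 1)) e w =
          (ε i : ℂ) * (i : ℂ) * δ (i + 1) e w := fun i _ => rfl
      rw [Finset.sum_congr rfl h2]
      ring
    refine ⟨fun w => ?_,
      X 2 - ∑ i ∈ Finset.range n, MvPolynomial.C ((ε i : ℂ) * (i : ℂ)) * Sf (i + 1) e,
      fun w => ?_⟩
    · rw [hval w, add_mul]
      refine (norm_sub_le _ _).trans (add_le_add ?_ ?_)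
      · have h3 : ‖w.1 (n + 1)‖ ≤ 2 := hB a ha (n + 1) w.1 w.2 (n + 1) le_rfl
        rw [norm_mul, norm_mul, Complex.norm_real, Real.norm_of_nonneg he.le, Complex.norm_natCast]
        have := mul_le_mul_of_nonneg_left h3 (mul_nonneg he.le (Nat.cast_nonneg (α := ℝ) n))
        nlinarith
      · rw [Finset.sum_mul]
        refine (norm_sum_le _ _).trans (Finset.sum_le_sum fun i hi => ?_)
        have hi' := Finset.mem_range.1 hi
        rw [norm_mul, norm_mul, Complex.norm_real, Real.norm_of_nonneg (hε i hi').le,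
          Complex.norm_natCast, mul_assoc (ε i * i)]
        exact mul_le_mul_of_nonneg_left (hδ (i + 1) (by omega) e he hee w)
          (mul_nonneg (hε i hi').le (Nat.cast_nonneg i))
    · have h5 : eval (P0 ε n e w.1)
          (X 2 - ∑ i ∈ Finset.range n, MvPolynomial.C ((ε i : ℂ) * (i : ℂ)) * Sf (i + 1) e) -
          ((e : ℂ) * n * w.1 (n + 1) -
            ∑ i ∈ Finset.range n, (ε i : ℂ) * (i : ℂ) * δ (i + 1) e w) = 0 := by
        have h6 : ∑ i ∈ Finset.range n, (ε i : ℂ) * (i : ℂ) * δ (i + 1) e w =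
            ∑ i ∈ Finset.range n, (ε i : ℂ) * (i : ℂ) * eval (P0 ε n e w.1) (Sf (i + 1) e) -
            ∑ i ∈ Finset.range n, (ε i : ℂ) * (i : ℂ) * w.1 (i + 1) := by
          rw [← Finset.sum_sub_distrib]
          refine Finset.sum_congr rfl fun i _ => ?_
          simp only [δ]
          ring
        rw [h6, map_sub, map_sum, eval_X]
        simp only [map_mul, eval_C]
        have h7 : P0 ε n e w.1 2 = (∑ i ∈ Finset.range n, (ε i : ℂ) * (i : ℂ) * w.1 (i + 1)) +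
            (e : ℂ) * (n : ℂ) * w.1 (n + 1) := rfl
        rw [h7]
        ring
      rw [hval w, h5, norm_zero]
      have : 0 ≤ ∑ i ∈ Finset.range n, ε i * i * C := Finset.sum_nonneg fun i hi =>
        mul_nonneg (mul_nonneg (hε i (Finset.mem_range.1 hi)).le (Nat.cast_nonneg i)) hC0
      positivity

end Pool.Agent.H257R3.GLSA
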