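import Mathlib

set_option autoImplicit false

namespace Pool.Agent.H257R3.Neck

/-- the self-similar colouring of the integer plane -/
def col (i j : ℤ) : Fin 3 :=
  if i = 0 ∧ j = 0 then 0
  else if i % 2 = 1 ∧ j % 2 = 1 then 0
  else if i % 2 = 1 then 1
  else if j % 2 = 1 then 2
  else col (i / 2) (j / 2)
termination_by i.natAbs + j.natAbs
decreasing_by omega

lemma col_oo (i j : ℤ) : col (2 * i + 1) (2 * j + 1) = 0 := by
  rw [col]
  have h1 : (2 * i + 1) % 2 = 1 := by omega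
  have h2 : (2 * j + 1) % 2 = 1 := by omega
  simp [h1, h2]

lemma col_oe (i j : ℤ) : col (2 * i + 1) (2 * j) = 1 := by
  rw [col]
  have h1 : (2 * i + 1) % 2 = 1 := by omega
  have h2 : (2 * j) % 2 = 0 := by omega
  have h3 : 2 * i + 1 ≠ 0 := by omega
  simp [h1, h2, h3]

lemma col_eo (i j : ℤ) : col (2 * i) (2 * j + 1) = 2 := by
  rw [col]
  have h1 : (2 * i) % 2 = 0 := by omega
  have h2 : (2 * j + 1) % 2 = 1 := by omega
  have h3 : 2 * j + 1 ≠ 0 := by omega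
  simp [h1, h2, h3]

lemma col_ee (i j : ℤ) : col (2 * i) (2 * j) = col i j := by
  by_cases h : i = 0 ∧ j = 0
  · rw [h.1, h.2]; simp
  · rw [col]
    have h1 : (2 * i) % 2 = 0 := by omega
    have h2 : (2 * j) % 2 = 0 := by omega
    have h3 : ¬ (2 * i = 0 ∧ 2 * j = 0) := by omega
    have h4 : 2 * i / 2 = i := by omega
    have h5 : 2 * j / 2 = j := by omega
    rw [if_neg h3]
    simp [h1, h2, h4, h5]

/-- self-similar colourings with constants `A B C` on the three non-even classes -/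
structure SelfSim {κ : Type} (c : ℤ → ℤ → κ) (A B C : κ) : Prop where
  oo : ∀ i j, c (2 * i + 1) (2 * j + 1) = A
  oe : ∀ i j, c (2 * i + 1) (2 * j) = B
  eo : ∀ i j, c (2 * i) (2 * j + 1) = C
  ee : ∀ i j, c (2 * i) (2 * j) = c i j

/-- number of cells of colour `k` in the rectangle `[x0,x1) × [y0,y1)` -/
noncomputable def S {κ : Type} [DecidableEq κ] (c : ℤ → ℤ → κ) (k : κ) (x0 x1 y0 y1 : ℤ) : ℤ :=
  ∑ i ∈ Finset.Ico x0 x1, ∑ j ∈ Finset.Ico y0 y1, if c i j = k then (1 : ℤ) else 0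

lemma sum_split (f : ℤ → ℤ) (x0 x1 : ℤ) :
    ∑ i ∈ Finset.Ico x0 x1, f i
      = ∑ i ∈ Finset.Ico ((x0 + 1) / 2) ((x1 + 1) / 2), f (2 * i)
        + ∑ i ∈ Finset.Ico (x0 / 2) (x1 / 2), f (2 * i + 1) := by
  classical
  have h1 : Finset.Ico x0 x1 = (Finset.Ico ((x0 + 1) / 2) ((x1 + 1) / 2)).image (fun i => 2 * i)
      ∪ (Finset.Ico (x0 / 2) (x1 / 2)).image (fun i => 2 * i + 1) := by
    ext t
    simp only [Finset.mem_Ico, Finset.mem_union, Finset.mem_image]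
    constructor
    · intro h
      rcases Int.emod_two_eq_zero_or_one t with ht | ht
      · left; exact ⟨t / 2, by omega, by omega⟩
      · right; exact ⟨t / 2, by omega, by omega⟩
    · rintro (⟨a, ha, rfl⟩ | ⟨a, ha, rfl⟩) <;> omega
  have h2 : Disjoint ((Finset.Ico ((x0 + 1) / 2) ((x1 + 1) / 2)).image (fun i : ℤ => 2 * i))
      ((Finset.Ico (x0 / 2) (x1 / 2)).image (fun i : ℤ => 2 * i + 1)) := by
    rw [Finset.disjoint_left]
    intro t ht ht'
    simp only [Finset.mem_Ico, Finset.mem_image] at ht ht'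
    obtain ⟨a, _, ha⟩ := ht
    obtain ⟨b, _, hb⟩ := ht'
    omega
  rw [h1, Finset.sum_union h2, Finset.sum_image, Finset.sum_image]
  · intro a _ b _ h; simp at h; omega
  · intro a _ b _ h; simp at h; omega

lemma S_rec {κ : Type} [DecidableEq κ] {c : ℤ → ℤ → κ} {A B C : κ} (h : SelfSim c A B C) (k : κ)
    {x0 x1 y0 y1 : ℤ} (hx : x0 ≤ x1) (hy : y0 ≤ y1) :
    S c k x0 x1 y0 y1 = S c k ((x0 + 1) / 2) ((x1 + 1) / 2) ((y0 + 1) / 2) ((y1 + 1) / 2)
      + (if A = k then 1 else 0) * ((x1 / 2 - x0 / 2) * (y1 / 2 - y0 / 2))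
      + (if B = k then 1 else 0) * ((x1 / 2 - x0 / 2) * ((y1 + 1) / 2 - (y0 + 1) / 2))
      + (if C = k then 1 else 0) * (((x1 + 1) / 2 - (x0 + 1) / 2) * (y1 / 2 - y0 / 2)) := by
  unfold S
  rw [sum_split]
  have e1 : ∀ i, ∑ j ∈ Finset.Ico y0 y1, (if c (2 * i) j = k then (1 : ℤ) else 0)
      = ∑ j ∈ Finset.Ico ((y0 + 1) / 2) ((y1 + 1) / 2), (if c i j = k then (1 : ℤ) else 0)
        + (if C = k then 1 else 0) * (y1 / 2 - y0 / 2) := by
    intro i
    rw [sum_split]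
    simp only [h.ee, h.eo]
    rw [Finset.sum_const, Int.card_Ico, nsmul_eq_mul, Int.toNat_of_nonneg (by omega)]
    ring
  have e2 : ∀ i, ∑ j ∈ Finset.Ico y0 y1, (if c (2 * i + 1) j = k then (1 : ℤ) else 0)
      = (if B = k then 1 else 0) * ((y1 + 1) / 2 - (y0 + 1) / 2)
        + (if A = k then 1 else 0) * (y1 / 2 - y0 / 2) := by
    intro i
    rw [sum_split]
    simp only [h.oe, h.oo]
    rw [Finset.sum_const, Finset.sum_const, Int.card_Ico, Int.card_Ico, nsmul_eq_mul, nsmul_eq_mul,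
      Int.toNat_of_nonneg (by omega), Int.toNat_of_nonneg (by omega)]
    ring
  simp only [e1, e2, Finset.sum_add_distrib]
  rw [Finset.sum_const, Finset.sum_const, Finset.sum_const, Int.card_Ico, Int.card_Ico]
  simp only [nsmul_eq_mul]
  rw [Int.toNat_of_nonneg (by omega), Int.toNat_of_nonneg (by omega)]
  ring

/-- left minus right -/
noncomputable def D {κ : Type} [DecidableEq κ] (c : ℤ → ℤ → κ) (k : κ) (x0 x1 y0 y1 y2 : ℤ) : ℤ :=
  S c k x0 x1 y0 y1 - S c k x0 x1 y1 y2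

lemma D_rec {κ : Type} [DecidableEq κ] {c : ℤ → ℤ → κ} {A B C : κ} (h : SelfSim c A B C) (k : κ)
    {x0 x1 y0 y1 y2 : ℤ} (hx : x0 ≤ x1) (hy : y0 ≤ y1) (hy' : y1 ≤ y2) :
    D c k x0 x1 y0 y1 y2 =
      D c k ((x0 + 1) / 2) ((x1 + 1) / 2) ((y0 + 1) / 2) ((y1 + 1) / 2) ((y2 + 1) / 2)
      + (if A = k then 1 else 0) * ((x1 / 2 - x0 / 2) * (2 * (y1 / 2) - y0 / 2 - y2 / 2))
      + (if B = k then 1 else 0) *
        ((x1 / 2 - x0 / 2) * (2 * ((y1 + 1) / 2) - (y0 + 1) / 2 - (y2 + 1) / 2))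
      + (if C = k then 1 else 0) *
        (((x1 + 1) / 2 - (x0 + 1) / 2) * (2 * (y1 / 2) - y0 / 2 - y2 / 2)) := by
  unfold D
  rw [S_rec h k hx hy, S_rec h k hx hy']
  ring

end Pool.Agent.H257R3.Neck
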