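import Pool.Agent.H257R3.Neck1

set_option autoImplicit false

namespace Pool.Agent.H257R3.Neck

variable {c : ℤ → ℤ → Fin 3} {A B C : Fin 3}

lemma S_nonneg (c : ℤ → ℤ → Fin 3) (k : Fin 3) (x0 x1 y0 y1 : ℤ) : 0 ≤ S c k x0 x1 y0 y1 := by
  unfold S
  exact Finset.sum_nonneg (fun i _ => Finset.sum_nonneg (fun j _ => by split_ifs <;> norm_num))

lemma S_total (c : ℤ → ℤ → Fin 3) {x0 x1 y0 y1 : ℤ} (hx : x0 ≤ x1) (hy : y0 ≤ y1) :
    S c 0 x0 x1 y0 y1 + S c 1 x0 x1 y0 y1 + S c 2 x0 x1 y0 y1 = (x1 - x0) * (y1 - y0) := by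
  unfold S
  rw [← Finset.sum_add_distrib, ← Finset.sum_add_distrib]
  have : ∀ i, (∑ j ∈ Finset.Ico y0 y1, (if c i j = 0 then (1 : ℤ) else 0))
      + (∑ j ∈ Finset.Ico y0 y1, (if c i j = 1 then (1 : ℤ) else 0))
      + (∑ j ∈ Finset.Ico y0 y1, (if c i j = 2 then (1 : ℤ) else 0)) = y1 - y0 := by
    intro i
    rw [← Finset.sum_add_distrib, ← Finset.sum_add_distrib]
    have : ∀ j, (if c i j = 0 then (1 : ℤ) else 0) + (if c i j = 1 then (1 : ℤ) else 0)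
        + (if c i j = 2 then (1 : ℤ) else 0) = 1 := by
      intro j
      generalize c i j = t
      fin_cases t <;> simp
    simp only [this]
    rw [Finset.sum_const, Int.card_Ico, nsmul_eq_mul, Int.toNat_of_nonneg (by omega)]
    ring
  simp only [this]
  rw [Finset.sum_const, Int.card_Ico, nsmul_eq_mul, Int.toNat_of_nonneg (by omega)]

lemma S_empty (c : ℤ → ℤ → Fin 3) (k : Fin 3) (x0 x1 y0 : ℤ) : S c k x0 x1 y0 y0 = 0 := by
  unfold S; simp

/-- the three colours in any order -/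
lemma sum3 (hAB : A ≠ B) (hAC : A ≠ C) (hBC : B ≠ C) (f : Fin 3 → ℤ) :
    f A + f B + f C = f 0 + f 1 + f 2 := by
  revert hAB hAC hBC
  fin_cases A <;> fin_cases B <;> fin_cases C <;> simp <;> ring_nf

/-- one column in total: the difference vector has norm equal to the number of rows -/
lemma norm_one (hAB : A ≠ B) (hAC : A ≠ C) (hBC : B ≠ C) {x0 x1 y0 y1 y2 : ℤ}
    (hx : x0 ≤ x1) (hy : y0 ≤ y1) (hy' : y1 ≤ y2) (hw : y2 - y0 = 1) :
    ((D c A x0 x1 y0 y1 y2).natAbs + (D c B x0 x1 y0 y1 y2).natAbs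
      + (D c C x0 x1 y0 y1 y2).natAbs : ℤ) = x1 - x0 := by
  have hcase : y1 = y0 ∨ y1 = y2 := by omega
  rcases hcase with h | h
  · subst h
    have e : ∀ k, D c k x0 x1 y1 y1 y2 = - S c k x0 x1 y1 y2 := by
      intro k; unfold D; rw [S_empty]; ring
    rw [e, e, e]
    have h1 := S_nonneg c A x0 x1 y1 y2
    have h2 := S_nonneg c B x0 x1 y1 y2
    have h3 := S_nonneg c C x0 x1 y1 y2
    have h4 := sum3 hAB hAC hBC (fun k => S c k x0 x1 y1 y2)
    have h5 := S_total c hx hy'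
    rw [hw, mul_one] at h5
    omega
  · subst h
    have e : ∀ k, D c k x0 x1 y0 y1 y1 = S c k x0 x1 y0 y1 := by
      intro k; unfold D; rw [S_empty]; ring
    rw [e, e, e]
    have h1 := S_nonneg c A x0 x1 y0 y1
    have h2 := S_nonneg c B x0 x1 y0 y1
    have h3 := S_nonneg c C x0 x1 y0 y1
    have h4 := sum3 hAB hAC hBC (fun k => S c k x0 x1 y0 y1)
    have h5 := S_total c hx hy
    rw [hw, mul_one] at h5
    omega

lemma D_A (h : SelfSim c A B C) (hAB : A ≠ B) (hAC : A ≠ C) {x0 x1 y0 y1 y2 : ℤ}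
    (hx : x0 ≤ x1) (hy : y0 ≤ y1) (hy' : y1 ≤ y2) :
    D c A x0 x1 y0 y1 y2 =
      D c A ((x0 + 1) / 2) ((x1 + 1) / 2) ((y0 + 1) / 2) ((y1 + 1) / 2) ((y2 + 1) / 2)
      + (x1 / 2 - x0 / 2) * (2 * (y1 / 2) - y0 / 2 - y2 / 2) := by
  rw [D_rec h A hx hy hy', if_pos rfl, if_neg hAB.symm, if_neg hAC.symm]; ring

lemma D_B (h : SelfSim c A B C) (hAB : A ≠ B) (hBC : B ≠ C) {x0 x1 y0 y1 y2 : ℤ}
    (hx : x0 ≤ x1) (hy : y0 ≤ y1) (hy' : y1 ≤ y2) :
    D c B x0 x1 y0 y1 y2 =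
      D c B ((x0 + 1) / 2) ((x1 + 1) / 2) ((y0 + 1) / 2) ((y1 + 1) / 2) ((y2 + 1) / 2)
      + (x1 / 2 - x0 / 2) * (2 * ((y1 + 1) / 2) - (y0 + 1) / 2 - (y2 + 1) / 2) := by
  rw [D_rec h B hx hy hy', if_neg hAB, if_pos rfl, if_neg hBC.symm]; ring

lemma D_C (h : SelfSim c A B C) (hAC : A ≠ C) (hBC : B ≠ C) {x0 x1 y0 y1 y2 : ℤ}
    (hx : x0 ≤ x1) (hy : y0 ≤ y1) (hy' : y1 ≤ y2) :
    D c C x0 x1 y0 y1 y2 =
      D c C ((x0 + 1) / 2) ((x1 + 1) / 2) ((y0 + 1) / 2) ((y1 + 1) / 2) ((y2 + 1) / 2)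
      + ((x1 + 1) / 2 - (x0 + 1) / 2) * (2 * (y1 / 2) - y0 / 2 - y2 / 2) := by
  rw [D_rec h C hx hy hy', if_neg hAC, if_neg hBC, if_pos rfl]; ring

lemma na1 {a' a r s : ℤ} (h : a' = a + r * s) (hr : 0 ≤ r) (hs : s = 1 ∨ s = -1) :
    (a'.natAbs : ℤ) ≤ a.natAbs + r := by
  rcases hs with hs | hs <;> subst hs <;> omega

lemma na0 {a' a r s : ℤ} (h : a' = a + r * s) (hs : s = 0) :
    (a'.natAbs : ℤ) = a.natAbs := by
  subst hs
  simp at h
  rw [h]

lemma ar_b {x0 x1 y0 y1 y2 : ℤ} (hx : x0 ≤ x1) (hy : y0 ≤ y1) (hy' : y1 ≤ y2)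
    (h1 : (x1 - x0) - (y2 - y0) ≤ 1) (h2 : (y2 - y0) - (x1 - x0) ≤ 1) :
    ((x1 + 1) / 2 - (x0 + 1) / 2) - ((y2 + 1) / 2 - (y0 + 1) / 2) ≤ 1 := by
  omega

lemma ar_c {x0 x1 y0 y1 y2 : ℤ} (hx : x0 ≤ x1) (hy : y0 ≤ y1) (hy' : y1 ≤ y2)
    (h1 : (x1 - x0) - (y2 - y0) ≤ 1) (h2 : (y2 - y0) - (x1 - x0) ≤ 1) :
    ((y2 + 1) / 2 - (y0 + 1) / 2) - ((x1 + 1) / 2 - (x0 + 1) / 2) ≤ 1 := by
  omega

lemma ar_d {y0 y1 y2 : ℤ} (hs : 2 * y1 - y0 - y2 = 1 ∨ 2 * y1 - y0 - y2 = -1) :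
    (2 * (y1 / 2) - y0 / 2 - y2 / 2 = 1 ∨ 2 * (y1 / 2) - y0 / 2 - y2 / 2 = -1) ∧
              2 * ((y1 + 1) / 2) - (y0 + 1) / 2 - (y2 + 1) / 2 = 0
            ∨ 2 * (y1 / 2) - y0 / 2 - y2 / 2 = 0 ∧
              (2 * ((y1 + 1) / 2) - (y0 + 1) / 2 - (y2 + 1) / 2 = 1 ∨
              2 * ((y1 + 1) / 2) - (y0 + 1) / 2 - (y2 + 1) / 2 = -1) := by
  rcases Int.emod_two_eq_zero_or_one y0 with a | a <;>
  rcases Int.emod_two_eq_zero_or_one y1 with b | b <;>
  rcases Int.emod_two_eq_zero_or_one y2 with c | c <;>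
  omega

lemma ar_e {y0 y1 y2 : ℤ} (hs : 2 * y1 - y0 - y2 = 0) :
    (2 * (y1 / 2) - y0 / 2 - y2 / 2 = 0 ∧
              2 * ((y1 + 1) / 2) - (y0 + 1) / 2 - (y2 + 1) / 2 = 0)
            ∨ ((2 * (y1 / 2) - y0 / 2 - y2 / 2 = 1 ∨ 2 * (y1 / 2) - y0 / 2 - y2 / 2 = -1) ∧
              (2 * ((y1 + 1) / 2) - (y0 + 1) / 2 - (y2 + 1) / 2 = 1 ∨
              2 * ((y1 + 1) / 2) - (y0 + 1) / 2 - (y2 + 1) / 2 = -1)) := by
  rcases Int.emod_two_eq_zero_or_one y0 with a | a <;>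
  rcases Int.emod_two_eq_zero_or_one y1 with b | b <;>
  rcases Int.emod_two_eq_zero_or_one y2 with c | c <;>
  omega

lemma ar_f {x0 x1 y0 y1 y2 : ℤ} (h1 : (x1 - x0) - (y2 - y0) ≤ 1)
    (hs : 2 * y1 - y0 - y2 = 1 ∨ 2 * y1 - y0 - y2 = -1) :
    2 * ((y2 + 1) / 2 - (y0 + 1) / 2) + 4 * ((x1 + 1) / 2 - (x0 + 1) / 2)
            ≤ 3 * (y2 - y0) + 3 := by
  omega

/-- the norm bounds -/
lemma bound (h : SelfSim c A B C) (hAB : A ≠ B) (hAC : A ≠ C) (hBC : B ≠ C) (n : ℕ) :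
    ∀ x0 x1 y0 y1 y2 : ℤ, x0 ≤ x1 → y0 ≤ y1 → y1 ≤ y2 → y2 - y0 ≤ n →
      (x1 - x0) - (y2 - y0) ≤ 1 → (y2 - y0) - (x1 - x0) ≤ 1 →
      ((2 * y1 - y0 - y2 = 1 ∨ 2 * y1 - y0 - y2 = -1) →
        2 * ((D c A x0 x1 y0 y1 y2).natAbs + (D c B x0 x1 y0 y1 y2).natAbs
          + (D c C x0 x1 y0 y1 y2).natAbs : ℤ) ≤ 3 * (y2 - y0) + 2 * (x1 - x0) - 1) ∧
      (2 * y1 - y0 - y2 = 0 → 2 ≤ y2 - y0 →
        ((D c A x0 x1 y0 y1 y2).natAbs + (D c B x0 x1 y0 y1 y2).natAbs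
          + (D c C x0 x1 y0 y1 y2).natAbs : ℤ) ≤ (y2 - y0) + 2 * (x1 - x0) - 2) := by
  induction n using Nat.strong_induction_on with
  | _ n ih =>
    intro x0 x1 y0 y1 y2 hx hy hy' hn h1 h2
    have gx : (x0 + 1) / 2 ≤ (x1 + 1) / 2 := by omega
    have gy : (y0 + 1) / 2 ≤ (y1 + 1) / 2 := by omega
    have gy' : (y1 + 1) / 2 ≤ (y2 + 1) / 2 := by omega
    have hro : 0 ≤ x1 / 2 - x0 / 2 := by omega
    have hre : 0 ≤ (x1 + 1) / 2 - (x0 + 1) / 2 := by omega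
    have hr : (x1 / 2 - x0 / 2) + ((x1 + 1) / 2 - (x0 + 1) / 2) = x1 - x0 := by omega
    have hb := ar_b hx hy hy' h1 h2
    have hc := ar_c hx hy hy' h1 h2
    have hwle : (y2 + 1) / 2 - (y0 + 1) / 2 ≤ (((y2 + 1) / 2 - (y0 + 1) / 2).toNat : ℤ) := by
      clear h1 h2 hx hb hc hro hre hr gx; omega
    constructor
    · intro hs
      by_cases hw1 : y2 - y0 = 1
      · have := norm_one (c := c) hAB hAC hBC hx hy hy' hw1
        clear hb hc gx gy gy' hro hre hr hwle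
        omega
      · have hw3 : 3 ≤ y2 - y0 := by clear hb hc gx gy gy' hro hre hr hwle; omega
        have hlt : ((y2 + 1) / 2 - (y0 + 1) / 2).toNat < n := by
          clear h1 h2 hx hb hc hro hre hr gx; omega
        have hoe := ar_d hs
        have e1 := ar_f (x0 := x0) (x1 := x1) h1 hs
        have e2 : ((y2 + 1) / 2 - (y0 + 1) / 2) ≤ (y2 - y0) := by
          clear h1 h2 hx hb hc hro hre hr gx hoe e1; omega
        have IH := ih ((y2 + 1) / 2 - (y0 + 1) / 2).toNat hlt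
          ((x0 + 1) / 2) ((x1 + 1) / 2) ((y0 + 1) / 2) ((y1 + 1) / 2) ((y2 + 1) / 2)
          gx gy gy' hwle hb hc
        have hA := D_A h hAB hAC hx hy hy'
        have hB := D_B h hAB hBC hx hy hy'
        have hC := D_C h hAC hBC hx hy hy'
        rcases hoe with ⟨ho, he⟩ | ⟨ho, he⟩
        · have hw2 : 2 ≤ (y2 + 1) / 2 - (y0 + 1) / 2 := by
            clear h1 h2 hx hb hc hro hre hr gx e1 hA hB hC IH ih; omega
          have I := IH.2 he hw2
          have a1 := na1 hA hro ho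
          have a2 := na0 hB he
          have a3 := na1 hC hre ho
          clear hA hB hC ih IH h ho he
          linarith
        · have I := IH.1 he
          have a1 := na0 hA ho
          have a2 := na1 hB hro he
          have a3 := na0 hC ho
          clear hA hB hC ih IH h ho he
          linarith
    · intro hs hw2
      have hlt : ((y2 + 1) / 2 - (y0 + 1) / 2).toNat < n := by
        clear h1 h2 hx hb hc hro hre hr gx; omega
      have hoe := ar_e hs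
      have e1 : ((y2 + 1) / 2 - (y0 + 1) / 2) ≤ (y2 - y0) := by
        clear h1 h2 hx hb hc hro hre hr gx hoe; omega
      have IH := ih ((y2 + 1) / 2 - (y0 + 1) / 2).toNat hlt
          ((x0 + 1) / 2) ((x1 + 1) / 2) ((y0 + 1) / 2) ((y1 + 1) / 2) ((y2 + 1) / 2)
          gx gy gy' hwle hb hc
      have hA := D_A h hAB hAC hx hy hy'
      have hB := D_B h hAB hBC hx hy hy'
      have hC := D_C h hAC hBC hx hy hy'
      rcases hoe with ⟨ho, he⟩ | ⟨ho, he⟩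
      · have hw4 : 2 ≤ (y2 + 1) / 2 - (y0 + 1) / 2 := by
          clear h1 h2 hx hb hc hro hre hr gx e1 hA hB hC IH ih; omega
        have I := IH.2 he hw4
        have a1 := na0 hA ho
        have a2 := na0 hB he
        have a3 := na0 hC ho
        clear hA hB hC ih IH h ho he
        linarith
      · have I := IH.1 he
        have a1 := na1 hA hro ho
        have a2 := na1 hB hro he
        have a3 := na1 hC hre ho
        by_cases hw : y2 - y0 = 2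
        · have hw' : (y2 + 1) / 2 - (y0 + 1) / 2 = 1 := by
            clear h1 h2 hx hb hc hro hre hr gx e1 hA hB hC IH ih I a1 a2 a3; omega
          have := norm_one (c := c) hAB hAC hBC gx gy gy' hw'
          clear hA hB hC ih IH h ho he
          linarith
        · have e3 : 6 ≤ y2 - y0 := by
            clear h1 h2 hx hb hc hro hre hr gx e1 hA hB hC IH ih I a1 a2 a3; omega
          have e2 : 2 * ((y2 + 1) / 2 - (y0 + 1) / 2) = (y2 - y0) := by
            clear h1 h2 hx hb hc hro hre hr gx e1 hA hB hC IH ih I a1 a2 a3; omega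
          clear hA hB hC ih IH h ho he
          linarith

/-- no square with even side is balanced by its vertical middle cut -/
lemma no_balance (h : SelfSim c A B C) (hAB : A ≠ B) (hAC : A ≠ C) (hBC : B ≠ C) (m : ℕ) :
    ∀ x0 y0 : ℤ, 1 ≤ m →
      ¬ ∀ k, D c k x0 (x0 + 2 * m) y0 (y0 + m) (y0 + 2 * m) = 0 := by
  induction m using Nat.strong_induction_on with
  | _ m ih =>
    intro x0 y0 hm hk
    have hA := D_A (x0 := x0) (x1 := x0 + 2 * m) (y0 := y0) (y1 := y0 + m) (y2 := y0 + 2 * m)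
      h hAB hAC (by omega) (by omega) (by omega)
    have hB := D_B (x0 := x0) (x1 := x0 + 2 * m) (y0 := y0) (y1 := y0 + m) (y2 := y0 + 2 * m)
      h hAB hBC (by omega) (by omega) (by omega)
    have hC := D_C (x0 := x0) (x1 := x0 + 2 * m) (y0 := y0) (y1 := y0 + m) (y2 := y0 + 2 * m)
      h hAC hBC (by omega) (by omega) (by omega)
    rw [hk] at hA hB hC
    have hro : (x0 + 2 * m) / 2 - x0 / 2 = m := by omega
    have hre : (x0 + 2 * m + 1) / 2 - (x0 + 1) / 2 = m := by omega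
    rw [hro] at hA hB
    rw [hre] at hC
    rcases Nat.even_or_odd' m with ⟨p, hp | hp⟩
    · have ho : 2 * ((y0 + m) / 2) - y0 / 2 - (y0 + 2 * m) / 2 = 0 := by omega
      have he : 2 * ((y0 + m + 1) / 2) - (y0 + 1) / 2 - (y0 + 2 * m + 1) / 2 = 0 := by omega
      rw [ho] at hA hC
      rw [he] at hB
      have ex : (x0 + 2 * m + 1) / 2 = (x0 + 1) / 2 + 2 * p := by omega
      have ey1 : (y0 + m + 1) / 2 = (y0 + 1) / 2 + p := by omega
      have ey2 : (y0 + 2 * m + 1) / 2 = (y0 + 1) / 2 + 2 * p := by omega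
      rw [ex, ey1, ey2] at hA hB hC
      apply ih p (by omega) ((x0 + 1) / 2) ((y0 + 1) / 2) (by omega)
      intro k
      have : k = A ∨ k = B ∨ k = C := by
        revert hAB hAC hBC
        clear * -
        fin_cases A <;> fin_cases B <;> fin_cases C <;> fin_cases k <;> simp
      rcases this with rfl | rfl | rfl
      · linarith
      · linarith
      · linarith
    · have hoe : (2 * ((y0 + m) / 2) - y0 / 2 - (y0 + 2 * m) / 2 = 1 ∧
          2 * ((y0 + m + 1) / 2) - (y0 + 1) / 2 - (y0 + 2 * m + 1) / 2 = -1) ∨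
          (2 * ((y0 + m) / 2) - y0 / 2 - (y0 + 2 * m) / 2 = -1 ∧
          2 * ((y0 + m + 1) / 2) - (y0 + 1) / 2 - (y0 + 2 * m + 1) / 2 = 1) := by omega
      have hb := (bound h hAB hAC hBC m ((x0 + 1) / 2) ((x0 + 2 * m + 1) / 2) ((y0 + 1) / 2)
        ((y0 + m + 1) / 2) ((y0 + 2 * m + 1) / 2) (by omega) (by omega) (by omega) (by omega)
        (by omega) (by omega)).1
      have hw : (y0 + 2 * m + 1) / 2 - (y0 + 1) / 2 = m := by omega
      rw [hw, hre] at hb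
      rcases hoe with ⟨ho, he⟩ | ⟨ho, he⟩
      · have hb' := hb (Or.inr he)
        rw [ho] at hA hC
        rw [he] at hB
        clear hb ho he
        omega
      · have hb' := hb (Or.inl he)
        rw [ho] at hA hC
        rw [he] at hB
        clear hb ho he
        omega

end Pool.Agent.H257R3.Neck
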