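import Mathlib

set_option autoImplicit false

namespace Pool.Agent.H257R3.Neck

/-- the cube with corner `a` and side `n`: the points with `a i + 1 ≤ x i ≤ a i + n` -/
noncomputable def box (d : ℕ) (a : Fin d → ℤ) (n : ℕ) : Finset (Fin d → ℤ) :=
  Fintype.piFinset (fun i => Finset.Icc (a i + 1) (a i + n))

/-- A finite family `C` of cuts; the pair `(i, m)` is the hyperplane `x i = m + 1/2`.
Two points lie in the same piece when no cut of the family separates them. -/
def SamePiece {d : ℕ} (C : Finset (Fin d × ℤ)) (x y : Fin d → ℤ) : Prop :=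
  ∀ p ∈ C, (x p.1 ≤ p.2 ↔ y p.1 ≤ p.2)

/-- The cube with corner `a` and side `n` has a fair splitting under `c` with at most `t` cuts:
there are a family of at most `t` cuts and an assignment `σ` of the points of the cube to two parts,
constant on each piece, for which every colour occurs equally often in both parts. -/
def FairlySplit {d k : ℕ} (t : ℕ) (c : (Fin d → ℤ) → Fin k) (a : Fin d → ℤ) (n : ℕ) : Prop :=
  ∃ C : Finset (Fin d × ℤ), C.card ≤ t ∧ ∃ σ : (Fin d → ℤ) → Bool,
    (∀ x ∈ box d a n, ∀ y ∈ box d a n, SamePiece C x y → σ x = σ y) ∧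
    ∀ j : Fin k, ((box d a n).filter (fun x => c x = j ∧ σ x = true)).card
      = ((box d a n).filter (fun x => c x = j ∧ σ x = false)).card

/-- some `k`-colouring of `ℤ^d` has no cube with a fair splitting using at most `t` cuts -/
def Avoidable (t d k : ℕ) : Prop :=
  ∃ c : (Fin d → ℤ) → Fin k, ∀ (a : Fin d → ℤ) (n : ℕ), 1 ≤ n → ¬ FairlySplit t c a n

/-- the number `g(t,d)`: the least `k` with `Avoidable t d k`, or `⊤` if there is none -/
noncomputable def g (t d : ℕ) : ℕ∞ := ⨅ (k : ℕ) (_ : Avoidable t d k), (k : ℕ∞)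

end Pool.Agent.H257R3.Neck
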