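import Mathlib

set_option autoImplicit false

namespace Pool.Agent.H257R3.Neck

def cnt1 (x : ℕ → Bool) (b : ℕ) : ℕ → ℕ
  | 0 => 0
  | q + 1 => cnt1 x b q + (if x (b + q) then 1 else 0)

def cnt2 (x : ℕ → ℕ → Bool) (a b : ℕ) (q : ℕ) : ℕ → ℕ
  | 0 => 0
  | p + 1 => cnt2 x a b q p + cnt1 (x (a + p)) b q

/-- balanced by a middle cut -/
def bad (x : ℕ → ℕ → Bool) (a b m : ℕ) : Bool :=
  cnt2 x a b m (2 * m) == cnt2 x a (b + m) m (2 * m)
    || cnt2 x a b (2 * m) m == cnt2 x (a + m) b (2 * m) m

def X (f g : ℕ → Bool) (i j : ℕ) : Bool := xor (xor (f i) (g j)) (i % 2 == 1 && j % 2 == 1)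

lemma cnt1_congr {x y : ℕ → Bool} {b : ℕ} : ∀ {q n : ℕ}, b + q ≤ n → (∀ j < n, x j = y j) →
    cnt1 x b q = cnt1 y b q
  | 0, _, _, _ => rfl
  | q + 1, n, hq, h => by
    simp only [cnt1]
    rw [cnt1_congr (n := n) (by omega) h, h _ (by omega)]

lemma cnt2_congr {x y : ℕ → ℕ → Bool} {a b q : ℕ} : ∀ {p n : ℕ}, a + p ≤ n → b + q ≤ n →
    (∀ i < n, ∀ j < n, x i j = y i j) → cnt2 x a b q p = cnt2 y a b q p
  | 0, _, _, _, _ => rfl
  | p + 1, n, hp, hq, h => by
    simp only [cnt2]
    rw [cnt2_congr (n := n) (by omega) hq h, cnt1_congr (n := n) hq (fun j hj => h _ (by omega) j hj)]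

lemma bad_congr {x y : ℕ → ℕ → Bool} {a b m n : ℕ} (ha : a + 2 * m ≤ n) (hb : b + 2 * m ≤ n)
    (h : ∀ i < n, ∀ j < n, x i j = y i j) : bad x a b m = bad y a b m := by
  unfold bad
  rw [cnt2_congr (x := x) (y := y) (n := n) (by omega) (by omega) h,
    cnt2_congr (x := x) (y := y) (b := b + m) (n := n) (by omega) (by omega) h,
    cnt2_congr (x := x) (y := y) (q := 2 * m) (p := m) (a := a) (n := n) (by omega) (by omega) h,
    cnt2_congr (x := x) (y := y) (q := 2 * m) (p := m) (a := a + m) (n := n)
      (by omega) (by omega) h]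

/-- some square of side 4 or 8 inside `[0,n)^2` touching the last row or column is balanced -/
def anybad (x : ℕ → ℕ → Bool) (n : ℕ) : Bool :=
  (decide (4 ≤ n) && (List.range (n - 3)).any (fun a => bad x a (n - 4) 2 || bad x (n - 4) a 2))
    || (decide (8 ≤ n) && (List.range (n - 7)).any (fun a => bad x a (n - 8) 4 || bad x (n - 8) a 4))

lemma anybad_spec {x : ℕ → ℕ → Bool} {n : ℕ} (h : anybad x n = true) :
    ∃ a b m, 1 ≤ m ∧ a + 2 * m ≤ n ∧ b + 2 * m ≤ n ∧ bad x a b m = true := by
  unfold anybad at h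
  rw [Bool.or_eq_true, Bool.and_eq_true, Bool.and_eq_true, List.any_eq_true, List.any_eq_true] at h
  rcases h with ⟨h1, a, ha, h2⟩ | ⟨h1, a, ha, h2⟩
  · rw [List.mem_range] at ha
    have h1' := of_decide_eq_true h1
    rw [Bool.or_eq_true] at h2
    rcases h2 with h2 | h2
    · exact ⟨a, n - 4, 2, by omega, by omega, by omega, h2⟩
    · exact ⟨n - 4, a, 2, by omega, by omega, by omega, h2⟩
  · rw [List.mem_range] at ha
    have h1' := of_decide_eq_true h1
    rw [Bool.or_eq_true] at h2
    rcases h2 with h2 | h2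
    · exact ⟨a, n - 8, 4, by omega, by omega, by omega, h2⟩
    · exact ⟨n - 8, a, 4, by omega, by omega, by omega, h2⟩

/-- the search; the lists hold the values in reverse order -/
def dfs : ℕ → ℕ → List Bool → List Bool → Bool
  | 0, n, f, g => anybad (X (fun i => f.getD (n - 1 - i) false) (fun i => g.getD (n - 1 - i) false)) n
  | k + 1, n, f, g =>
    anybad (X (fun i => f.getD (n - 1 - i) false) (fun i => g.getD (n - 1 - i) false)) n ||
      (dfs k (n + 1) (false :: f) (false :: g) && dfs k (n + 1) (false :: f) (true :: g) &&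
        (dfs k (n + 1) (true :: f) (false :: g) && dfs k (n + 1) (true :: f) (true :: g)))

lemma search : dfs 7 1 [false] [false] = true ∧ dfs 7 1 [false] [true] = true := by
  constructor <;> decide +kernel

/-- agreement of a list with a function -/
def Agr (n : ℕ) (f : List Bool) (F : ℕ → Bool) : Prop := ∀ i < n, f.getD (n - 1 - i) false = F i

lemma Agr_cons {n : ℕ} {f : List Bool} {F : ℕ → Bool} (h : Agr n f F) : Agr (n + 1) (F n :: f) F := by
  intro i hi
  by_cases h' : i = n
  · subst h'
    simp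
  · have : n + 1 - 1 - i = (n - 1 - i) + 1 := by omega
    rw [this, List.getD_cons_succ]
    exact h i (by omega)

lemma dfs_sound (F G : ℕ → Bool) : ∀ (k n : ℕ) (f g : List Bool), Agr n f F → Agr n g G →
    dfs k n f g = true → ∃ a b m, 1 ≤ m ∧ bad (X F G) a b m = true := by
  have key : ∀ (n : ℕ) (f g : List Bool), Agr n f F → Agr n g G →
      anybad (X (fun i => f.getD (n - 1 - i) false) (fun i => g.getD (n - 1 - i) false)) n = true →
      ∃ a b m, 1 ≤ m ∧ bad (X F G) a b m = true := by
    intro n f g hf hg h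
    obtain ⟨a, b, m, hm, ha, hb, h'⟩ := anybad_spec h
    refine ⟨a, b, m, hm, ?_⟩
    rw [← h']
    apply bad_congr ha hb
    intro i hi j hj
    unfold X
    simp only
    rw [hf i hi, hg j hj]
  intro k
  induction k with
  | zero => intro n f g hf hg h; exact key n f g hf hg h
  | succ k ih =>
    intro n f g hf hg h
    simp only [dfs] at h
    rw [Bool.or_eq_true] at h
    rcases h with h | h
    · exact key n f g hf hg h
    · rw [Bool.and_eq_true, Bool.and_eq_true, Bool.and_eq_true] at h
      have hf' := Agr_cons hf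
      have hg' := Agr_cons hg
      obtain ⟨⟨h1, h2⟩, h3, h4⟩ := h
      cases hF : F n <;> cases hG : G n <;> rw [hF] at hf' <;> rw [hG] at hg'
      · exact ih _ _ _ hf' hg' h1
      · exact ih _ _ _ hf' hg' h2
      · exact ih _ _ _ hf' hg' h3
      · exact ih _ _ _ hf' hg' h4

lemma block_odd (x : ℕ → ℕ → Bool) (a b : ℕ) (h : bad x a b 1 = false) :
    x (a + 1) (b + 1) = !(xor (xor (x a b) (x (a + 1) b)) (x a (b + 1))) := by
  simp only [bad, cnt2, cnt1, Nat.mul_one, Bool.or_eq_false_iff, beq_eq_false_iff_ne] at h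
  simp only [Nat.add_zero] at h
  revert h
  cases x a b <;> cases x (a + 1) b <;> cases x a (b + 1) <;> cases x (a + 1) (b + 1) <;> simp

lemma exists_bad (x : ℕ → ℕ → Bool) : ∃ a b m, 1 ≤ m ∧ bad x a b m = true := by
  by_contra hno
  push Not at hno
  have hb : ∀ a b, bad x a b 1 = false := by
    intro a b
    have := hno a b 1 le_rfl
    simpa using this
  have key : ∀ i j, x i j = X (fun i => xor (x i 0) (x 0 0)) (fun j => x 0 j) i j := by
    intro i
    induction i with
    | zero =>
      intro j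
      simp [X]
    | succ i ihi =>
      intro j
      induction j with
      | zero =>
        simp [X]
      | succ j ihj =>
        rw [block_odd x i j (hb i j), ihi j, ihi (j + 1), ihj]
        unfold X
        have p1 : ∀ n : ℕ, ((n + 1) % 2 == 1) = !(n % 2 == 1) := by
          intro n
          rcases Nat.mod_two_eq_zero_or_one n with hn | hn
          · have : (n + 1) % 2 = 1 := by omega
            rw [hn, this]; rfl
          · have : (n + 1) % 2 = 0 := by omega
            rw [hn, this]; rfl
        simp only [p1]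
        cases x i 0 <;> cases x (i + 1) 0 <;> cases x 0 0 <;> cases x 0 j <;> cases x 0 (j + 1) <;>
          cases (i % 2 == 1) <;> cases (j % 2 == 1) <;> rfl
  have hx : x = X (fun i => xor (x i 0) (x 0 0)) (fun j => x 0 j) := by
    funext i j; exact key i j
  have hs : ∃ a b m, 1 ≤ m ∧ bad (X (fun i => xor (x i 0) (x 0 0)) (fun j => x 0 j)) a b m = true := by
    have a1 : Agr 1 [false] (fun i => xor (x i 0) (x 0 0)) := by
      intro i hi
      have : i = 0 := by omega
      subst this
      simp
    have a2 : Agr 1 [x 0 0] (fun j => x 0 j) := by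
      intro i hi
      have : i = 0 := by omega
      subst this
      simp
    cases h0 : x 0 0
    · rw [h0] at a2
      rw [h0] at a1
      exact dfs_sound _ _ 7 1 _ _ a1 a2 search.1
    · rw [h0] at a2
      rw [h0] at a1
      exact dfs_sound _ _ 7 1 _ _ a1 a2 search.2
  obtain ⟨a, b, m, hm, h⟩ := hs
  rw [← hx] at h
  exact hno a b m hm h

end Pool.Agent.H257R3.Neck
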