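import Pool.Agent.H257R3.Neck2
import Pool.Agent.H257R3.NeckLow
import Pool.Agent.H257R3.NeckDefs

set_option autoImplicit false

namespace Pool.Agent.H257R3.Neck

lemma mem_box2 {u v : Fin 2} (huv : u ≠ v) {a : Fin 2 → ℤ} {n : ℕ} {x : Fin 2 → ℤ} :
    x ∈ box 2 a n ↔ (a u + 1 ≤ x u ∧ x u ≤ a u + n) ∧ (a v + 1 ≤ x v ∧ x v ≤ a v + n) := by
  unfold box
  rw [Fintype.mem_piFinset]
  simp only [Finset.mem_Icc]
  constructor
  · intro h; exact ⟨h u, h v⟩
  · intro h w
    have : w = u ∨ w = v := by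
      revert huv; fin_cases u <;> fin_cases v <;> fin_cases w <;> simp
    rcases this with rfl | rfl
    · exact h.1
    · exact h.2

lemma card_box {u v : Fin 2} (huv : u ≠ v) (a : Fin 2 → ℤ) (n : ℕ) (Q : (Fin 2 → ℤ) → Prop)
    [DecidablePred Q] (P : ℤ → ℤ → Prop) [∀ i j, Decidable (P i j)]
    (hQ : ∀ x ∈ box 2 a n, Q x ↔ P (x u) (x v)) :
    (((box 2 a n).filter Q).card : ℤ) =
      ∑ i ∈ Finset.Ico (a u + 1) (a u + n + 1), ∑ j ∈ Finset.Ico (a v + 1) (a v + n + 1),
        if P i j then (1 : ℤ) else 0 := by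
  classical
  rw [← Finset.sum_product' (f := fun i j => if P i j then (1 : ℤ) else 0), ← Finset.sum_filter,
    Finset.sum_const, nsmul_eq_mul, mul_one]
  congr 1
  have hv : ∀ w : Fin 2, w = u ∨ w = v := by
    intro w
    revert huv; fin_cases u <;> fin_cases v <;> fin_cases w <;> simp
  refine Finset.card_bij' (fun x _ => (x u, x v)) (fun p _ => fun w => if w = u then p.1 else p.2)
    ?_ ?_ ?_ ?_
  · intro x hx
    rw [Finset.mem_filter] at hx
    have h1 := (mem_box2 huv).1 hx.1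
    have h2 := (hQ x hx.1).1 hx.2
    rw [Finset.mem_filter, Finset.mem_product, Finset.mem_Ico, Finset.mem_Ico]
    exact ⟨by omega, h2⟩
  · intro p hp
    rw [Finset.mem_filter, Finset.mem_product, Finset.mem_Ico, Finset.mem_Ico] at hp
    rw [Finset.mem_filter]
    have hb : (fun w => if w = u then p.1 else p.2) ∈ box 2 a n := by
      rw [mem_box2 huv]
      simp only [if_true, if_neg huv.symm]
      omega
    refine ⟨hb, ?_⟩
    rw [hQ _ hb]
    simp only [if_true, if_neg huv.symm]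
    exact hp.2
  · intro x _
    funext w
    rcases hv w with rfl | rfl
    · simp
    · simp only [if_neg huv.symm]
  · intro p _
    simp only [if_true, if_neg huv.symm]

lemma sum_Ico_le (f : ℤ → ℤ) (P : ℤ → Prop) [DecidablePred P] {y0 y2 m : ℤ} (h1 : y0 ≤ m + 1)
    (h2 : m + 1 ≤ y2) :
    ∑ j ∈ Finset.Ico y0 y2, (if P j ∧ j ≤ m then (1 : ℤ) else 0)
      = ∑ j ∈ Finset.Ico y0 (m + 1), (if P j then (1 : ℤ) else 0) := by
  rw [← Finset.sum_filter, ← Finset.sum_filter]
  congr 1
  ext j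
  simp only [Finset.mem_filter, Finset.mem_Ico]
  constructor
  · rintro ⟨h, h', h''⟩; exact ⟨by omega, h'⟩
  · rintro ⟨h, h'⟩; exact ⟨by omega, h', by omega⟩

lemma sum_Ico_gt (f : ℤ → ℤ) (P : ℤ → Prop) [DecidablePred P] {y0 y2 m : ℤ} (h1 : y0 ≤ m + 1)
    (h2 : m + 1 ≤ y2) :
    ∑ j ∈ Finset.Ico y0 y2, (if P j ∧ ¬ j ≤ m then (1 : ℤ) else 0)
      = ∑ j ∈ Finset.Ico (m + 1) y2, (if P j then (1 : ℤ) else 0) := by
  rw [← Finset.sum_filter, ← Finset.sum_filter]
  congr 1
  ext j
  simp only [Finset.mem_filter, Finset.mem_Ico]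
  constructor
  · rintro ⟨h, h', h''⟩; exact ⟨by omega, h'⟩
  · rintro ⟨h, h'⟩; exact ⟨by omega, h', by omega⟩

/-- a splitting where all points are in one part is not fair -/
lemma const_unfair {k : ℕ} (c : (Fin 2 → ℤ) → Fin k) (a : Fin 2 → ℤ) (n : ℕ) (hn : 1 ≤ n)
    (σ : (Fin 2 → ℤ) → Bool) (s : Bool) (hσ : ∀ x ∈ box 2 a n, σ x = s)
    (hf : ∀ j : Fin k, ((box 2 a n).filter (fun x => c x = j ∧ σ x = true)).card
      = ((box 2 a n).filter (fun x => c x = j ∧ σ x = false)).card) : False := by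
  have hx : (fun w => a w + 1) ∈ box 2 a n := by
    unfold box
    rw [Fintype.mem_piFinset]
    intro w
    rw [Finset.mem_Icc]
    omega
  have h := hf (c (fun w => a w + 1))
  cases s
  · have h1 : ((box 2 a n).filter (fun x => c x = c (fun w => a w + 1) ∧ σ x = true)) = ∅ := by
      rw [Finset.filter_eq_empty_iff]
      intro x hx' h'
      rw [hσ x hx'] at h'
      simp at h'
    have h2 : 0 < ((box 2 a n).filter
        (fun x => c x = c (fun w => a w + 1) ∧ σ x = false)).card := by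
      rw [Finset.card_pos]
      exact ⟨_, Finset.mem_filter.2 ⟨hx, rfl, hσ _ hx⟩⟩
    rw [h1, Finset.card_empty] at h
    omega
  · have h1 : ((box 2 a n).filter (fun x => c x = c (fun w => a w + 1) ∧ σ x = false)) = ∅ := by
      rw [Finset.filter_eq_empty_iff]
      intro x hx' h'
      rw [hσ x hx'] at h'
      simp at h'
    have h2 : 0 < ((box 2 a n).filter
        (fun x => c x = c (fun w => a w + 1) ∧ σ x = true)).card := by
      rw [Finset.card_pos]
      exact ⟨_, Finset.mem_filter.2 ⟨hx, rfl, hσ _ hx⟩⟩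
    rw [h1, Finset.card_empty] at h
    omega

/-- the left part and the right part counted with `S` -/
lemma counts {u v : Fin 2} (huv : u ≠ v) (e : ℤ → ℤ → Fin 3) (c : (Fin 2 → ℤ) → Fin 3)
    (hc : ∀ x, c x = e (x u) (x v)) (a : Fin 2 → ℤ) (n : ℕ) (m : ℤ) (h1 : a v + 1 ≤ m + 1)
    (h2 : m + 1 ≤ a v + n + 1) (σ : (Fin 2 → ℤ) → Bool) (s : Bool)
    (hσ : ∀ x ∈ box 2 a n, σ x = (if x v ≤ m then s else !s)) (k : Fin 3) :
    (((box 2 a n).filter (fun x => c x = k ∧ σ x = s)).card : ℤ)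
        = S e k (a u + 1) (a u + n + 1) (a v + 1) (m + 1) ∧
    (((box 2 a n).filter (fun x => c x = k ∧ σ x = !s)).card : ℤ)
        = S e k (a u + 1) (a u + n + 1) (m + 1) (a v + n + 1) := by
  constructor
  · rw [card_box huv a n _ (fun i j => e i j = k ∧ j ≤ m)]
    · unfold S
      apply Finset.sum_congr rfl
      intro i _
      exact sum_Ico_le (fun _ => 0) (fun j => e i j = k) h1 h2
    · intro x hx
      rw [hσ x hx, hc]
      by_cases hm : x v ≤ m
      · simp [hm]
      · simp [hm]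
  · rw [card_box huv a n _ (fun i j => e i j = k ∧ ¬ j ≤ m)]
    · unfold S
      apply Finset.sum_congr rfl
      intro i _
      exact sum_Ico_gt (fun _ => 0) (fun j => e i j = k) h1 h2
    · intro x hx
      rw [hσ x hx, hc]
      by_cases hm : x v ≤ m
      · simp [hm]
      · simp [hm]

lemma dir_unfair {u v : Fin 2} (huv : u ≠ v) (e : ℤ → ℤ → Fin 3) (c : (Fin 2 → ℤ) → Fin 3)
    (hc : ∀ x, c x = e (x u) (x v)) {A B C : Fin 3} (h : SelfSim e A B C) (hAB : A ≠ B)
    (hAC : A ≠ C) (hBC : B ≠ C) (a : Fin 2 → ℤ) (n : ℕ) (hn : 1 ≤ n) (m : ℤ)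
    (σ : (Fin 2 → ℤ) → Bool)
    (hσ : ∀ x ∈ box 2 a n, ∀ y ∈ box 2 a n, (x v ≤ m ↔ y v ≤ m) → σ x = σ y)
    (hf : ∀ j : Fin 3, ((box 2 a n).filter (fun x => c x = j ∧ σ x = true)).card
      = ((box 2 a n).filter (fun x => c x = j ∧ σ x = false)).card) : False := by
  have hl : (fun w => a w + 1) ∈ box 2 a n := by
    rw [mem_box2 huv]; omega
  have hr : (fun w => a w + (n : ℤ)) ∈ box 2 a n := by
    rw [mem_box2 huv]; omega
  by_cases h1 : a v + 1 ≤ m ∧ m + 1 ≤ a v + n
  · -- both parts nonempty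
    by_cases hs : σ (fun w => a w + 1) = σ (fun w => a w + (n : ℤ))
    · refine const_unfair c a n hn σ (σ (fun w => a w + 1)) ?_ hf
      intro x hx
      by_cases hm : x v ≤ m
      · exact hσ x hx _ hl (by omega)
      · rw [hs]
        exact hσ x hx _ hr (by omega)
    · have hσ' : ∀ x ∈ box 2 a n, σ x = (if x v ≤ m then σ (fun w => a w + 1)
          else !σ (fun w => a w + 1)) := by
        intro x hx
        by_cases hm : x v ≤ m
        · rw [if_pos hm]
          exact hσ x hx _ hl (by omega)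
        · rw [if_neg hm]
          have : σ x = σ (fun w => a w + (n : ℤ)) := hσ x hx _ hr (by omega)
          rw [this]
          revert hs
          cases σ (fun w => a w + 1) <;> cases σ (fun w => a w + (n : ℤ)) <;> simp
      generalize σ (fun w => a w + 1) = s at hσ'
      have hcount : ∀ k : Fin 3, S e k (a u + 1) (a u + n + 1) (a v + 1) (m + 1)
          = S e k (a u + 1) (a u + n + 1) (m + 1) (a v + n + 1) := by
        intro k
        obtain ⟨c1, c2⟩ := counts huv e c hc a n m (by omega) (by omega) σ s hσ' k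
        rw [← c1, ← c2]
        have := hf k
        cases s
        · simpa using this.symm
        · simpa using this
      have t1 := S_total e (x0 := a u + 1) (x1 := a u + n + 1) (y0 := a v + 1) (y1 := m + 1)
        (by omega) (by omega)
      have t2 := S_total e (x0 := a u + 1) (x1 := a u + n + 1) (y0 := m + 1) (y1 := a v + n + 1)
        (by omega) (by omega)
      rw [hcount, hcount, hcount, t2] at t1
      have hn' : (n : ℤ) ≠ 0 := by omega
      have e1 : (a u + n + 1 - (a u + 1)) = (n : ℤ) := by ring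
      rw [e1] at t1
      have t3 := mul_left_cancel₀ hn' t1
      obtain ⟨l, hl'⟩ : ∃ l : ℕ, m - a v = l := ⟨(m - a v).toNat, by omega⟩
      have hn2 : (n : ℤ) = 2 * l := by omega
      apply no_balance h hAB hAC hBC l (a u + 1) (a v + 1) (by omega)
      intro k
      unfold D
      have e2 : a u + 1 + 2 * (l : ℤ) = a u + n + 1 := by omega
      have e3 : a v + 1 + (l : ℤ) = m + 1 := by omega
      have e4 : a v + 1 + 2 * (l : ℤ) = a v + n + 1 := by omega
      rw [e2, e3, e4, hcount k, sub_self]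
  · refine const_unfair c a n hn σ (σ (fun w => a w + 1)) ?_ hf
    intro x hx
    have hx' := (mem_box2 huv).1 hx
    exact hσ x hx _ hl (by omega)

lemma upper : Avoidable 1 2 3 := by
  have h1 : SelfSim col 0 1 2 := ⟨col_oo, col_oe, col_eo, col_ee⟩
  have h2 : SelfSim (fun i j => col j i) 0 2 1 :=
    ⟨fun i j => col_oo j i, fun i j => col_eo j i, fun i j => col_oe j i, fun i j => col_ee j i⟩
  refine ⟨fun x => col (x 0) (x 1), ?_⟩
  rintro a n hn ⟨C, hC, σ, hσ, hf⟩
  rcases Nat.le_one_iff_eq_zero_or_eq_one.1 hC with h0 | h0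
  · rw [Finset.card_eq_zero] at h0
    subst h0
    have hl : (fun w => a w + 1) ∈ box 2 a n := by
      rw [mem_box2 (u := 0) (v := 1) (by decide)]; omega
    exact const_unfair _ a n hn σ (σ (fun w => a w + 1))
      (fun x hx => hσ x hx _ hl (by intro p hp; simp at hp)) hf
  · rw [Finset.card_eq_one] at h0
    obtain ⟨⟨i, m⟩, rfl⟩ := h0
    have hσ' : ∀ x ∈ box 2 a n, ∀ y ∈ box 2 a n, (x i ≤ m ↔ y i ≤ m) → σ x = σ y := by
      intro x hx y hy hxy
      apply hσ x hx y hy
      intro p hp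
      rw [Finset.mem_singleton] at hp
      subst hp
      exact hxy
    have hi : i = 0 ∨ i = 1 := by fin_cases i <;> simp
    rcases hi with rfl | rfl
    · exact dir_unfair (u := 1) (v := 0) (by decide) (fun i j => col j i) _ (fun x => rfl) h2
        (by decide) (by decide) (by decide) a n hn m σ hσ' hf
    · exact dir_unfair (u := 0) (v := 1) (by decide) col _ (fun x => rfl) h1
        (by decide) (by decide) (by decide) a n hn m σ hσ' hf

lemma Ico_succ (z : ℤ) (p : ℕ) (f : ℤ → ℤ) :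
    ∑ i ∈ Finset.Ico z (z + (p + 1 : ℕ)), f i = ∑ i ∈ Finset.Ico z (z + p), f i + f (z + p) := by
  have : Finset.Ico z (z + (p + 1 : ℕ)) = insert (z + (p : ℤ)) (Finset.Ico z (z + p)) := by
    ext t
    simp only [Finset.mem_Ico, Finset.mem_insert]
    push_cast
    omega
  rw [this, Finset.sum_insert (by simp), add_comm]

lemma cnt1_eq (x : ℕ → Bool) (b : ℕ) : ∀ q : ℕ,
    (cnt1 x b q : ℤ) = ∑ j ∈ Finset.Ico (b : ℤ) (b + q), if x j.toNat = true then (1 : ℤ) else 0
  | 0 => by simp [cnt1]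
  | q + 1 => by
    rw [Ico_succ, ← cnt1_eq x b q]
    simp only [cnt1]
    have : ((b : ℤ) + q).toNat = b + q := by omega
    rw [this]
    push_cast
    rfl

lemma cnt2_eq (x : ℕ → ℕ → Bool) (a b q : ℕ) : ∀ p : ℕ,
    (cnt2 x a b q p : ℤ) = ∑ i ∈ Finset.Ico (a : ℤ) (a + p), ∑ j ∈ Finset.Ico (b : ℤ) (b + q),
      if x i.toNat j.toNat = true then (1 : ℤ) else 0
  | 0 => by simp [cnt2]
  | p + 1 => by
    rw [Ico_succ, ← cnt2_eq x a b q p]
    simp only [cnt2]
    have : ((a : ℤ) + p).toNat = a + p := by omega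
    rw [this, ← cnt1_eq]
    push_cast
    rfl

end Pool.Agent.H257R3.Neck
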