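import Pool.Agent.H257R3.NeckFin

set_option autoImplicit false

namespace Pool.Agent.H257R3.Neck

lemma mk_fair {k : ℕ} (c : (Fin 2 → ℤ) → Fin k) (a : Fin 2 → ℤ) (n : ℕ) (v : Fin 2) (mm : ℤ)
    (h : ∀ j : Fin k, ((box 2 a n).filter (fun x => c x = j ∧ x v ≤ mm)).card
      = ((box 2 a n).filter (fun x => c x = j ∧ ¬ x v ≤ mm)).card) : FairlySplit 1 c a n := by
  refine ⟨{(v, mm)}, by simp, fun x => decide (x v ≤ mm), ?_, ?_⟩
  · intro x _ y _ hxy
    have := hxy (v, mm) (Finset.mem_singleton_self _)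
    simp only at this
    simp only [this]
  · intro j
    simpa using h j

lemma fair_of {k : ℕ} (hk : k ≤ 2) (c : (Fin 2 → ℤ) → Fin k) {u v : Fin 2} (huv : u ≠ v)
    (z : ℕ → ℕ → Bool)
    (hz : ∀ i j : ℕ, z i j = decide (((c (fun w => if w = u then (i : ℤ) else (j : ℤ))) : ℕ) = 0))
    (A B m : ℕ) (hc : cnt2 z A B m (2 * m) = cnt2 z A (B + m) m (2 * m)) :
    FairlySplit 1 c (fun w => if w = u then (A : ℤ) - 1 else (B : ℤ) - 1) (2 * m) := by
  classical
  apply mk_fair c _ _ v ((B : ℤ) + m - 1)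
  intro j
  have hv : ∀ w : Fin 2, w = u ∨ w = v := by
    intro w
    revert huv; fin_cases u <;> fin_cases v <;> fin_cases w <;> simp
  have hext : ∀ x : Fin 2 → ℤ, (fun w => if w = u then x u else x v) = x := by
    intro x
    funext w
    rcases hv w with rfl | rfl
    · simp
    · simp only [if_neg huv.symm]
  have c1 := card_box huv (fun w => if w = u then (A : ℤ) - 1 else (B : ℤ) - 1) (2 * m)
    (fun x => c x = j ∧ x v ≤ (B : ℤ) + m - 1)
    (fun i t => c (fun w => if w = u then i else t) = j ∧ t ≤ (B : ℤ) + m - 1)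
    (fun x _ => by simp only [hext])
  have c2 := card_box huv (fun w => if w = u then (A : ℤ) - 1 else (B : ℤ) - 1) (2 * m)
    (fun x => c x = j ∧ ¬ x v ≤ (B : ℤ) + m - 1)
    (fun i t => c (fun w => if w = u then i else t) = j ∧ ¬ t ≤ (B : ℤ) + m - 1)
    (fun x _ => by simp only [hext])
  simp only [if_true, if_neg huv.symm] at c1 c2
  have s1 : ∀ i : ℤ, ∑ t ∈ Finset.Ico ((B : ℤ) - 1 + 1) ((B : ℤ) - 1 + (2 * m : ℕ) + 1),
      (if c (fun w => if w = u then i else t) = j ∧ t ≤ (B : ℤ) + m - 1 then (1 : ℤ) else 0)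
      = ∑ t ∈ Finset.Ico ((B : ℤ) - 1 + 1) ((B : ℤ) + m - 1 + 1),
        (if c (fun w => if w = u then i else t) = j then (1 : ℤ) else 0) := by
    intro i
    exact sum_Ico_le (fun _ => 0) (fun t => c (fun w => if w = u then i else t) = j)
      (by push_cast; omega) (by push_cast; omega)
  have s2 : ∀ i : ℤ, ∑ t ∈ Finset.Ico ((B : ℤ) - 1 + 1) ((B : ℤ) - 1 + (2 * m : ℕ) + 1),
      (if c (fun w => if w = u then i else t) = j ∧ ¬ t ≤ (B : ℤ) + m - 1 then (1 : ℤ) else 0)
      = ∑ t ∈ Finset.Ico ((B : ℤ) + m - 1 + 1) ((B : ℤ) - 1 + (2 * m : ℕ) + 1),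
        (if c (fun w => if w = u then i else t) = j then (1 : ℤ) else 0) := by
    intro i
    exact sum_Ico_gt (fun _ => 0) (fun t => c (fun w => if w = u then i else t) = j)
      (by push_cast; omega) (by push_cast; omega)
  simp only [s1] at c1
  simp only [s2] at c2
  have e1 : ((A : ℤ) - 1 + 1) = A := by ring
  have e2 : ((A : ℤ) - 1 + (2 * m : ℕ) + 1) = A + (2 * m : ℕ) := by ring
  have e3 : ((B : ℤ) - 1 + 1) = B := by ring
  have e4 : ((B : ℤ) + m - 1 + 1) = B + m := by ring
  have e5 : ((B : ℤ) - 1 + (2 * m : ℕ) + 1) = ((B + m : ℕ) : ℤ) + m := by push_cast; ring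
  have e6 : ((B : ℤ) + m - 1 + 1) = ((B + m : ℕ) : ℤ) := by push_cast; ring
  rw [e1, e2, e3, e4] at c1
  rw [e1, e2, e6, e5] at c2
  have hcz : (cnt2 z A B m (2 * m) : ℤ) = cnt2 z A (B + m) m (2 * m) := by exact_mod_cast hc
  rw [cnt2_eq, cnt2_eq] at hcz
  have goal : (((box 2 (fun w => if w = u then (A : ℤ) - 1 else (B : ℤ) - 1) (2 * m)).filter
      (fun x => c x = j ∧ x v ≤ (B : ℤ) + m - 1)).card : ℤ)
      = (((box 2 (fun w => if w = u then (A : ℤ) - 1 else (B : ℤ) - 1) (2 * m)).filter
      (fun x => c x = j ∧ ¬ x v ≤ (B : ℤ) + m - 1)).card : ℤ) := by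
    rw [c1, c2]
    have hj : (j : ℕ) = 0 ∨ (j : ℕ) = 1 := by have := j.2; omega
    rcases hj with hj | hj
    · have r : ∀ (y0 y1 : ℤ), 0 ≤ y0 →
          ∑ i ∈ Finset.Ico (A : ℤ) (A + (2 * m : ℕ)), ∑ t ∈ Finset.Ico y0 y1,
            (if c (fun w => if w = u then i else t) = j then (1 : ℤ) else 0)
          = ∑ i ∈ Finset.Ico (A : ℤ) (A + (2 * m : ℕ)), ∑ t ∈ Finset.Ico y0 y1,
            (if z i.toNat t.toNat = true then (1 : ℤ) else 0) := by
        intro y0 y1 h0
        apply Finset.sum_congr rfl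
        intro i hi
        apply Finset.sum_congr rfl
        intro t ht
        rw [Finset.mem_Ico] at hi ht
        rw [hz, Int.toNat_of_nonneg (by omega), Int.toNat_of_nonneg (by omega)]
        congr 1
        rw [decide_eq_true_iff, Fin.ext_iff, hj]
      rw [r _ _ (by omega), r _ _ (by omega)]
      exact hcz
    · have r : ∀ (y0 : ℤ), 0 ≤ y0 →
          ∑ i ∈ Finset.Ico (A : ℤ) (A + (2 * m : ℕ)), ∑ t ∈ Finset.Ico y0 (y0 + m),
            (if c (fun w => if w = u then i else t) = j then (1 : ℤ) else 0)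
          = (2 * m : ℕ) * m - ∑ i ∈ Finset.Ico (A : ℤ) (A + (2 * m : ℕ)),
            ∑ t ∈ Finset.Ico y0 (y0 + m), (if z i.toNat t.toNat = true then (1 : ℤ) else 0) := by
        intro y0 h0
        rw [eq_sub_iff_add_eq, ← Finset.sum_add_distrib]
        have : ∀ i ∈ Finset.Ico (A : ℤ) (A + (2 * m : ℕ)),
            (∑ t ∈ Finset.Ico y0 (y0 + m),
              (if c (fun w => if w = u then i else t) = j then (1 : ℤ) else 0)
            + ∑ t ∈ Finset.Ico y0 (y0 + m), (if z i.toNat t.toNat = true then (1 : ℤ) else 0))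
            = m := by
          intro i hi
          rw [← Finset.sum_add_distrib]
          rw [Finset.mem_Ico] at hi
          have : ∀ t ∈ Finset.Ico y0 (y0 + m),
              ((if c (fun w => if w = u then i else t) = j then (1 : ℤ) else 0)
              + (if z i.toNat t.toNat = true then (1 : ℤ) else 0)) = 1 := by
            intro t ht
            rw [Finset.mem_Ico] at ht
            rw [hz, Int.toNat_of_nonneg (by omega), Int.toNat_of_nonneg (by omega)]
            have h2 := (c (fun w => if w = u then i else t)).2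
            by_cases h3 : ((c (fun w => if w = u then i else t)) : ℕ) = 0
            · have h4 : c (fun w => if w = u then i else t) ≠ j := by
                intro h5; rw [h5] at h3; omega
              rw [if_neg h4]
              simp [h3]
            · have h4 : c (fun w => if w = u then i else t) = j := by
                apply Fin.ext; omega
              rw [if_pos h4]
              simp [h3]
          rw [Finset.sum_congr rfl this, Finset.sum_const, Int.card_Ico]
          simp
        rw [Finset.sum_congr rfl this, Finset.sum_const, Int.card_Ico]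
        simp
      rw [r _ (by omega), r _ (by omega), hcz]
  exact_mod_cast goal

lemma cnt2_transpose (x : ℕ → ℕ → Bool) (a b q p : ℕ) :
    cnt2 x a b q p = cnt2 (fun i j => x j i) b a p q := by
  have : (cnt2 x a b q p : ℤ) = cnt2 (fun i j => x j i) b a p q := by
    rw [cnt2_eq, cnt2_eq, Finset.sum_comm]
  exact_mod_cast this

lemma lower {k : ℕ} (hk : k ≤ 2) : ¬ Avoidable 1 2 k := by
  rintro ⟨c, hc⟩
  obtain ⟨a, b, m, hm, hbad⟩ := exists_bad
    (fun i j => decide (((c (fun w => if w = 0 then (i : ℤ) else (j : ℤ))) : ℕ) = 0))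
  unfold bad at hbad
  rw [Bool.or_eq_true, beq_iff_eq, beq_iff_eq] at hbad
  rcases hbad with h | h
  · exact hc _ _ (by omega) (fair_of hk c (u := 0) (v := 1) (by decide) _ (fun i j => rfl) a b m h)
  · rw [cnt2_transpose, cnt2_transpose _ (a + m)] at h
    refine hc _ _ (by omega) (fair_of hk c (u := 1) (v := 0) (by decide) _ ?_ b a m h)
    intro i j
    congr 4
    funext w
    fin_cases w <;> simp

theorem main : g 1 2 = 3 := by
  unfold g
  apply le_antisymm
  · exact iInf₂_le 3 upper
  · refine le_iInf₂ ?_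
    intro k hk
    by_contra hlt
    rw [not_le] at hlt
    have : k < 3 := by exact_mod_cast hlt
    exact lower (by omega) hk

end Pool.Agent.H257R3.Neck
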